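import Mathlib

set_option autoImplicit false

/-!
# Turán's (4,3) covering problem for triples given by the sum of their points in an abelian group

The points are the elements of a finite abelian group `G`, and the triples are the three-element
subsets whose sum lies in a given set `S`. If every four elements contain such a triple, then there
are more triples than Turán's number `f(|G|)` (for `|G| ≥ 34`), and `S` has at least
`(|G| - 5) / 2` elements. The same strict inequality holds, for `|G| ≥ 1000`, for every covering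
family of triples which differs from such a system in at most `|G| ^ 3 / 1000` triples.
-/

namespace Pool.Agent.Helper762SS.AbelianSumSystems

open Finset

/-- Turán's number `f(n)`: `s (s-1) (2s-1)`, `s² (2s-1)`, `s² (2s+1)` for `n = 3s, 3s+1, 3s+2`. -/
def turanNumber (n : ℕ) : ℕ :=
  if n % 3 = 0 then n / 3 * (n / 3 - 1) * (2 * (n / 3) - 1)
  else if n % 3 = 1 then (n / 3) ^ 2 * (2 * (n / 3) - 1)
  else (n / 3) ^ 2 * (2 * (n / 3) + 1)

/-- Every four-element set of points contains a member of `T`. -/
def Covers {G : Type} (T : Finset (Finset G)) : Prop :=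
  ∀ X : Finset G, X.card = 4 → ∃ e ∈ T, e ⊆ X

/-- The three-element subsets of `G` whose sum lies in `S`. -/
def sumTriples {G : Type} [AddCommGroup G] [Fintype G] [DecidableEq G] (S : Finset G) :
    Finset (Finset G) :=
  ((univ : Finset G).powersetCard 3).filter (fun e => ∑ x ∈ e, x ∈ S)

section

variable {G : Type} [AddCommGroup G] [Fintype G] [DecidableEq G]

/-- Four different elements outside `S` whose sum is three times an element. -/
lemma not_covers {S : Finset G} {a b c d σ : G} (ha : a ∉ S) (hb : b ∉ S) (hc : c ∉ S)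
    (hd : d ∉ S) (hab : a ≠ b) (hac : a ≠ c) (had : a ≠ d) (hbc : b ≠ c) (hbd : b ≠ d)
    (hcd : c ≠ d) (h : a + b + c + d = σ + σ + σ) : ¬ Covers (sumTriples S) := by
  intro hcov
  have e1 : σ - a ≠ σ - b := fun h => hab (sub_right_injective h)
  have e2 : σ - a ≠ σ - c := fun h => hac (sub_right_injective h)
  have e3 : σ - a ≠ σ - d := fun h => had (sub_right_injective h)
  have e4 : σ - b ≠ σ - c := fun h => hbc (sub_right_injective h)
  have e5 : σ - b ≠ σ - d := fun h => hbd (sub_right_injective h)
  have e6 : σ - c ≠ σ - d := fun h => hcd (sub_right_injective h)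
  have n1 : σ - a ∉ ({σ - b, σ - c, σ - d} : Finset G) := by simp [e1, e2, e3]
  have n2 : σ - b ∉ ({σ - c, σ - d} : Finset G) := by simp [e4, e5]
  have n3 : σ - c ∉ ({σ - d} : Finset G) := by simp [e6]
  have hX : ({σ - a, σ - b, σ - c, σ - d} : Finset G).card = 4 := by
    rw [card_insert_of_notMem n1, card_insert_of_notMem n2, card_insert_of_notMem n3,
      card_singleton]
  obtain ⟨e, he, heX⟩ := hcov _ hX
  rw [sumTriples, mem_filter, mem_powersetCard] at he
  have hsum : ∑ x ∈ ({σ - a, σ - b, σ - c, σ - d} : Finset G), x = σ := by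
    rw [sum_insert n1, sum_insert n2, sum_insert n3, sum_singleton]
    calc σ - a + (σ - b + (σ - c + (σ - d))) = σ + (σ + σ + σ) - (a + b + c + d) := by abel
      _ = σ := by rw [h]; abel
  have hdiff : (({σ - a, σ - b, σ - c, σ - d} : Finset G) \ e).card = 1 := by
    rw [card_sdiff_of_subset heX, hX, he.1.2]
  obtain ⟨x, hx⟩ := card_eq_one.mp hdiff
  have hs2 := sum_sdiff (f := fun x : G => x) heX
  rw [hsum, hx, sum_singleton] at hs2
  have hxm : x ∈ ({σ - a, σ - b, σ - c, σ - d} : Finset G) := by
    have : x ∈ ({σ - a, σ - b, σ - c, σ - d} : Finset G) \ e := by rw [hx]; simp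
    exact (mem_sdiff.mp this).1
  have hse : ∑ x ∈ e, x = σ - x := by rw [← hs2]; abel
  have hin := he.2
  rw [hse] at hin
  simp only [mem_insert, mem_singleton] at hxm
  rcases hxm with rfl | rfl | rfl | rfl
  · exact ha (by simpa using hin)
  · exact hb (by simpa using hin)
  · exact hc (by simpa using hin)
  · exact hd (by simpa using hin)

/-- In the coset `-g + 3G` there is an element with at most one half. -/
lemma exists_half (g : G) : ∃ σ : G,
    (univ.filter (fun y : G => y + y = -g + (σ + σ + σ))).card ≤ 1 := by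
  by_contra hcon
  push Not at hcon
  set H : Finset G := univ.image (fun σ : G => σ + σ + σ) with hH
  have h1 : (univ.filter (fun y : G => y + y + g ∈ H)).card ≤ H.card := by
    have hsub : univ.filter (fun y : G => y + y + g ∈ H) ⊆ H.image (fun x => x + g) := by
      intro y hy
      rw [mem_filter, hH, mem_image] at hy
      obtain ⟨τ, -, hτ⟩ := hy.2
      rw [mem_image]
      refine ⟨(y - τ) + (y - τ) + (y - τ), ?_, ?_⟩
      · rw [hH, mem_image]
        exact ⟨y - τ, mem_univ _, rfl⟩
      · calc y - τ + (y - τ) + (y - τ) + g = (y + y + g) + y - (τ + τ + τ) := by abel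
          _ = y := by rw [hτ]; abel
    exact (card_le_card hsub).trans card_image_le
  have h2 : (univ.filter (fun y : G => y + y + g ∈ H)).card =
      ∑ t ∈ H, ((univ.filter (fun y : G => y + y + g ∈ H)).filter
        (fun y => y + y + g = t)).card := by
    apply card_eq_sum_card_fiberwise
    intro y hy
    have hy' : y ∈ univ.filter (fun y : G => y + y + g ∈ H) := hy
    rw [mem_filter] at hy'
    exact hy'.2
  have h3 : ∀ t ∈ H, 2 ≤ ((univ.filter (fun y : G => y + y + g ∈ H)).filter
        (fun y => y + y + g = t)).card := by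
    intro t ht
    have ht' := ht
    rw [hH, mem_image] at ht'
    obtain ⟨σ, -, hσ⟩ := ht'
    have h5 := hcon σ
    have h6 : (univ.filter (fun y : G => y + y = -g + (σ + σ + σ))).card ≤
        ((univ.filter (fun y : G => y + y + g ∈ H)).filter (fun y => y + y + g = t)).card := by
      apply card_le_card
      intro y hy
      rw [mem_filter] at hy
      have hy2 : y + y + g = t := by
        rw [hy.2, ← hσ]; abel
      rw [mem_filter, mem_filter]
      exact ⟨⟨mem_univ _, by rw [hy2]; exact ht⟩, hy2⟩
    omega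
  have h4 : ∑ t ∈ H, 2 ≤ H.card := (sum_le_sum h3).trans (h2 ▸ h1)
  rw [sum_const, smul_eq_mul] at h4
  have h5 : 0 < H.card := by
    rw [card_pos]
    exact ⟨0 + 0 + 0, by rw [hH, mem_image]; exact ⟨0, mem_univ _, rfl⟩⟩
  omega

/-- The bound for the number of sums. -/
lemma card_bound (S : Finset G) (h : Covers (sumTriples S)) :
    Fintype.card G ≤ 2 * S.card + 5 := by
  by_contra hcon
  push Not at hcon
  have hA : Sᶜ.card = Fintype.card G - S.card := card_compl S
  have hSle : S.card ≤ Fintype.card G := card_le_univ S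
  have hA1 : 1 < Sᶜ.card := by omega
  obtain ⟨a, ha, b, hb, hab⟩ := one_lt_card.mp hA1
  obtain ⟨σ, hσ⟩ := exists_half (a + b)
  set u : G := -(a + b) + (σ + σ + σ) with hu
  set A : Finset G := (Sᶜ.erase a).erase b with hAdef
  have hAc : Sᶜ.card ≤ A.card + 2 := by
    have h1 := pred_card_le_card_erase (s := Sᶜ) (a := a)
    have h2 := pred_card_le_card_erase (s := Sᶜ.erase a) (a := b)
    rw [← hAdef] at h2
    omega
  have hB : 2 ≤ (A ∩ A.image (fun y => u - y)).card := by
    have h1 : (A.image (fun y => u - y)).card = A.card :=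
      card_image_of_injective _ sub_right_injective
    have h2 := card_union_add_card_inter A (A.image (fun y => u - y))
    have h3 : (A ∪ A.image (fun y => u - y)).card ≤ Fintype.card G := card_le_univ _
    omega
  obtain ⟨y, hy, hyu⟩ : ∃ y ∈ A ∩ A.image (fun y => u - y), y + y ≠ u := by
    by_contra hno
    push Not at hno
    have : A ∩ A.image (fun y => u - y) ⊆ univ.filter (fun y : G => y + y = u) := by
      intro y hy
      rw [mem_filter]
      exact ⟨mem_univ _, hno y hy⟩
    have := card_le_card this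
    omega
  rw [mem_inter, mem_image] at hy
  obtain ⟨hy1, z, hz, hzy⟩ := hy
  have hyz : y ≠ z := by
    intro h
    apply hyu
    rw [← h] at hzy
    calc y + y = u - y + y := by rw [hzy]
      _ = u := by abel
  rw [hAdef, mem_erase, mem_erase, mem_compl] at hy1 hz
  rw [mem_compl] at ha hb
  refine not_covers ha hb hy1.2.2 hz.2.2 hab (Ne.symm hy1.2.1) (Ne.symm hz.2.1) (Ne.symm hy1.1)
    (Ne.symm hz.1) hyz (σ := σ) ?_ h
  rw [← hzy, hu]
  abel

/-- Groups whose order is prime to three. -/
lemma coprime_bound (S : Finset G) (h : Covers (sumTriples S)) (h3 : ¬ 3 ∣ Fintype.card G) :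
    Fintype.card G ≤ S.card + 3 := by
  by_contra hcon
  push Not at hcon
  have hA : Sᶜ.card = Fintype.card G - S.card := card_compl S
  have hA1 : 4 ≤ Sᶜ.card := by omega
  obtain ⟨A, hAS, hAc⟩ := exists_subset_card_eq hA1
  obtain ⟨a, b, c, d, hab, hac, had, hbc, hbd, hcd, rfl⟩ := card_eq_four.mp hAc
  have hcop : (Nat.card G).Coprime 3 := by
    rw [Nat.card_eq_fintype_card]
    exact ((Nat.Prime.coprime_iff_not_dvd Nat.prime_three).mpr h3).symm
  obtain ⟨σ, hσ⟩ := (nsmulCoprime hcop).surjective (a + b + c + d)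
  have hσ' : a + b + c + d = σ + σ + σ := by
    rw [← hσ, nsmulCoprime_apply]
    abel
  have m : ∀ x ∈ ({a, b, c, d} : Finset G), x ∉ S := fun x hx => mem_compl.mp (hAS hx)
  exact not_covers (m a (by simp)) (m b (by simp)) (m c (by simp)) (m d (by simp)) hab hac had
    hbc hbd hcd hσ' h

/-- The number of triples with a given sum. -/
lemma triples (s : G) : Fintype.card G * (Fintype.card G - 3) ≤
    6 * (((univ : Finset G).powersetCard 3).filter (fun e => ∑ x ∈ e, x = s)).card := by
  set P : Finset (G × G) := univ.filter (fun q => q.1 ≠ q.2 ∧ q.1 ≠ s - q.1 - q.2 ∧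
    q.2 ≠ s - q.1 - q.2) with hP
  set F := ((univ : Finset G).powersetCard 3).filter (fun e => ∑ x ∈ e, x = s) with hF
  have hPc : Fintype.card G * (Fintype.card G - 3) ≤ P.card := by
    have h1 : Pᶜ ⊆ (univ.image (fun x : G => (x, x))) ∪
        ((univ.image (fun x : G => (x, s - x - x))) ∪ (univ.image (fun y : G => (s - y - y, y)))) := by
      rintro ⟨x, y⟩ hq
      rw [mem_compl, hP, mem_filter] at hq
      simp only [mem_univ, true_and, not_and_or, not_not] at hq
      rw [mem_union, mem_union, mem_image, mem_image, mem_image]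
      rcases hq with h | h | h
      · left
        exact ⟨x, mem_univ _, by rw [h]⟩
      · right; left
        refine ⟨x, mem_univ _, Prod.ext rfl ?_⟩
        change s - x - x = y
        have h' : x = s - x - y := h
        calc s - x - x = s - x - (s - x - y) := by rw [← h']
          _ = y := by abel
      · right; right
        refine ⟨y, mem_univ _, Prod.ext ?_ rfl⟩
        change s - y - y = x
        have h' : y = s - x - y := h
        calc s - y - y = s - (s - x - y) - y := by rw [← h']
          _ = x := by abel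
    have h2 := (card_le_card h1).trans (card_union_le _ _)
    have h3 := card_union_le (univ.image (fun x : G => (x, s - x - x)))
      (univ.image (fun y : G => (s - y - y, y)))
    have h4 : (univ.image (fun x : G => (x, x))).card ≤ Fintype.card G := card_image_le
    have h5 : (univ.image (fun x : G => (x, s - x - x))).card ≤ Fintype.card G := card_image_le
    have h6 : (univ.image (fun y : G => (s - y - y, y))).card ≤ Fintype.card G := card_image_le
    have h7 : Pᶜ.card = Fintype.card G * Fintype.card G - P.card := by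
      rw [card_compl, Fintype.card_prod]
    have h8 : P.card ≤ Fintype.card G * Fintype.card G := by
      rw [← Fintype.card_prod]; exact card_le_univ P
    rw [Nat.mul_sub]
    omega
  have himg : P.image (fun q => ({q.1, q.2, s - q.1 - q.2} : Finset G)) ⊆ F := by
    intro e he
    rw [mem_image] at he
    obtain ⟨q, hq, rfl⟩ := he
    rw [hP, mem_filter] at hq
    obtain ⟨-, h1, h2, h3⟩ := hq
    rw [hF, mem_filter, mem_powersetCard]
    refine ⟨⟨subset_univ _, card_eq_three.mpr ⟨_, _, _, h1, h2, h3, rfl⟩⟩, ?_⟩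
    rw [sum_insert (by simp [h1, h2]), sum_insert (by simpa using h3), sum_singleton]
    abel
  have hfib : ∀ e ∈ P.image (fun q => ({q.1, q.2, s - q.1 - q.2} : Finset G)),
      (P.filter (fun q => ({q.1, q.2, s - q.1 - q.2} : Finset G) = e)).card ≤ 6 := by
    intro e he
    have hec : e.card = 3 := by
      have := himg he
      rw [hF, mem_filter, mem_powersetCard] at this
      exact this.1.2
    have hsub : P.filter (fun q => ({q.1, q.2, s - q.1 - q.2} : Finset G) = e) ⊆ e.offDiag := by
      intro q hq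
      rw [mem_filter, hP, mem_filter] at hq
      obtain ⟨hq1, hq2⟩ := hq
      rw [mem_offDiag, ← hq2]
      exact ⟨by simp, by simp, hq1.2.1⟩
    calc _ ≤ e.offDiag.card := card_le_card hsub
      _ = 6 := by rw [offDiag_card, hec]
  calc Fintype.card G * (Fintype.card G - 3) ≤ P.card := hPc
    _ ≤ 6 * (P.image (fun q => ({q.1, q.2, s - q.1 - q.2} : Finset G))).card :=
        card_le_mul_card_image P 6 hfib
    _ ≤ 6 * F.card := Nat.mul_le_mul_left _ (card_le_card himg)

lemma card_sumTriples (S : Finset G) :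
    S.card * (Fintype.card G * (Fintype.card G - 3)) ≤ 6 * (sumTriples S).card := by
  have h1 : (sumTriples S).card = ∑ s ∈ S,
      ((sumTriples S).filter (fun e => ∑ x ∈ e, x = s)).card := by
    apply card_eq_sum_card_fiberwise
    intro e he
    have he' : e ∈ sumTriples S := he
    rw [sumTriples, mem_filter] at he'
    exact he'.2
  rw [h1, mul_sum, card_eq_sum_ones, sum_mul]
  refine sum_le_sum fun s hs => ?_
  rw [one_mul]
  refine (triples s).trans (Nat.mul_le_mul_left _ (card_le_card ?_))
  intro e he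
  rw [mem_filter] at he ⊢
  rw [sumTriples, mem_filter]
  exact ⟨⟨he.1, by rw [he.2]; exact hs⟩, he.2⟩

/-! ### Families close to a sum system -/

lemma distinct3 {a b c : G} (h : ({a, b, c} : Finset G).card = 3) : a ≠ b ∧ a ≠ c ∧ b ≠ c := by
  refine ⟨?_, ?_, ?_⟩
  · rintro rfl
    have h1 : ({a, a, c} : Finset G) = {a, c} := by ext x; simp
    rw [h1] at h
    have := card_le_two (a := a) (b := c)
    omega
  · rintro rfl
    have h1 : ({a, b, a} : Finset G) = {a, b} := by ext x; simp; tauto
    rw [h1] at h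
    have := card_le_two (a := a) (b := b)
    omega
  · rintro rfl
    have h1 : ({a, b, b} : Finset G) = {a, b} := by ext x; simp
    rw [h1] at h
    have := card_le_two (a := a) (b := b)
    omega

/-- There are at most six orders of a triple. -/
lemma ordered_le (D : Finset (Finset G)) (hD : ∀ e ∈ D, e.card = 3) :
    (univ.filter (fun r : G × G × G => ({r.1, r.2.1, r.2.2} : Finset G) ∈ D)).card ≤
      6 * D.card := by
  refine card_le_mul_card_image_of_maps_to
    (f := fun r : G × G × G => ({r.1, r.2.1, r.2.2} : Finset G))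
    (fun r hr => (mem_filter.mp hr).2) 6 ?_
  intro e he
  have hec := hD e he
  have h1 : ((univ.filter (fun r : G × G × G => ({r.1, r.2.1, r.2.2} : Finset G) ∈ D)).filter
      (fun r => ({r.1, r.2.1, r.2.2} : Finset G) = e)).card ≤ e.offDiag.card := by
    apply card_le_card_of_injOn (fun r => (r.1, r.2.1))
    · intro r hr
      have hr2 : ({r.1, r.2.1, r.2.2} : Finset G) = e := (mem_filter.mp hr).2
      have h3 := distinct3 (by rw [hr2]; exact hec : ({r.1, r.2.1, r.2.2} : Finset G).card = 3)
      change (r.1, r.2.1) ∈ e.offDiag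
      rw [mem_offDiag, ← hr2]
      exact ⟨by simp, by simp, h3.1⟩
    · intro r hr r' hr' h
      have hr2 : ({r.1, r.2.1, r.2.2} : Finset G) = e := (mem_filter.mp hr).2
      have hr2' : ({r'.1, r'.2.1, r'.2.2} : Finset G) = e := (mem_filter.mp hr').2
      have h3 := distinct3 (by rw [hr2]; exact hec : ({r.1, r.2.1, r.2.2} : Finset G).card = 3)
      have e1 : r.1 = r'.1 := (Prod.mk.inj h).1
      have e2 : r.2.1 = r'.2.1 := (Prod.mk.inj h).2
      have h4 : r.2.2 ∈ ({r'.1, r'.2.1, r'.2.2} : Finset G) := by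
        rw [hr2', ← hr2]; simp
      simp only [mem_insert, mem_singleton] at h4
      rcases h4 with h4 | h4 | h4
      · exact absurd (e1.trans h4.symm) h3.2.1
      · exact absurd (e2.trans h4.symm) h3.2.2
      · exact Prod.ext e1 (Prod.ext e2 h4)
  rw [offDiag_card, hec] at h1
  exact h1

lemma four_le (D : Finset (Finset G)) (hD : ∀ e ∈ D, e.card = 3)
    (f : G × G × G × G → G × G × G × G) (hf : Function.Injective f) :
    (univ.filter (fun q => ({(f q).2.1, (f q).2.2.1, (f q).2.2.2} : Finset G) ∈ D)).card ≤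
      Fintype.card G * (6 * D.card) := by
  have h1 : ((univ.filter (fun q => ({(f q).2.1, (f q).2.2.1, (f q).2.2.2} : Finset G) ∈
      D)).image f) ⊆ (univ : Finset G) ×ˢ
      (univ.filter (fun r : G × G × G => ({r.1, r.2.1, r.2.2} : Finset G) ∈ D)) := by
    intro x hx
    obtain ⟨q, hq, rfl⟩ := mem_image.mp hx
    rw [mem_product]
    exact ⟨mem_univ _, mem_filter.mpr ⟨mem_univ _, (mem_filter.mp hq).2⟩⟩
  rw [← card_image_of_injective _ hf]
  refine (card_le_card h1).trans ?_
  rw [card_product, card_univ]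
  exact Nat.mul_le_mul_left _ (ordered_le D hD)

/-- The pairs `(σ, y)` which complete `a`, `b` to four elements of `A` with sum `3σ`. -/
def goodPairs (A : Finset G) (a b : G) : Finset (G × G) :=
  univ.filter (fun q => (q.2 ∈ A ∧ q.2 ≠ a ∧ q.2 ≠ b) ∧
    (q.1 + q.1 + q.1 - (a + b) - q.2 ∈ A ∧ q.1 + q.1 + q.1 - (a + b) - q.2 ≠ a ∧
      q.1 + q.1 + q.1 - (a + b) - q.2 ≠ b) ∧ q.2 ≠ q.1 + q.1 + q.1 - (a + b) - q.2)

lemma count_good (A : Finset G) (a b : G) :
    Fintype.card G * (2 * A.card) ≤
      Fintype.card G * (Fintype.card G + 5) + (goodPairs A a b).card := by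
  have hone : ∀ σ : G, 2 * A.card ≤ Fintype.card G + 4 +
      (univ.filter (fun y : G => (σ, y) ∈ goodPairs A a b)).card +
      (univ.filter (fun y : G => y + y = σ + σ + σ - (a + b))).card := by
    intro σ
    set u : G := σ + σ + σ - (a + b) with hu
    set B : Finset G := (A.erase a).erase b with hB
    have hAc : A.card ≤ B.card + 2 := by
      have h1 := pred_card_le_card_erase (s := A) (a := a)
      have h2 := pred_card_le_card_erase (s := A.erase a) (a := b)
      rw [← hB] at h2
      omega
    have h1 : (B.image (fun y => u - y)).card = B.card :=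
      card_image_of_injective _ sub_right_injective
    have h2 := card_union_add_card_inter B (B.image (fun y => u - y))
    have h3 : (B ∪ B.image (fun y => u - y)).card ≤ Fintype.card G := card_le_univ _
    have h4 : B ∩ B.image (fun y => u - y) ⊆
        (univ.filter (fun y : G => (σ, y) ∈ goodPairs A a b)) ∪
        (univ.filter (fun y : G => y + y = u)) := by
      intro y hy
      rw [mem_inter, mem_image] at hy
      obtain ⟨hy1, z, hz, hzy⟩ := hy
      have hz2 : u - y = z := by rw [← hzy]; abel
      rw [hB, mem_erase, mem_erase] at hy1 hz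
      rw [mem_union, mem_filter, mem_filter]
      by_cases h : y + y = u
      · right; exact ⟨mem_univ _, h⟩
      · left
        refine ⟨mem_univ _, ?_⟩
        rw [goodPairs, mem_filter]
        refine ⟨mem_univ _, ⟨hy1.2.2, hy1.2.1, hy1.1⟩, ?_, ?_⟩
        · change u - y ∈ A ∧ u - y ≠ a ∧ u - y ≠ b
          rw [hz2]
          exact ⟨hz.2.2, hz.2.1, hz.1⟩
        · change y ≠ u - y
          intro hyu
          apply h
          calc y + y = (u - y) + y := by rw [← hyu]
            _ = u := by abel
    have h5 := (card_le_card h4).trans (card_union_le _ _)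
    omega
  have hsum := sum_le_sum (fun σ (_ : σ ∈ (univ : Finset G)) => hone σ)
  rw [sum_const, card_univ, smul_eq_mul, sum_add_distrib, sum_add_distrib, sum_const, card_univ,
    smul_eq_mul] at hsum
  have e1 : ∑ σ : G, (univ.filter (fun y : G => (σ, y) ∈ goodPairs A a b)).card =
      (goodPairs A a b).card := by
    have h1 : (goodPairs A a b).card = (univ.filter (fun q : G × G => q ∈ goodPairs A a b)).card := by
      congr 1; ext q; simp
    rw [h1, card_filter, ← univ_product_univ, sum_product]
    refine sum_congr rfl fun σ _ => ?_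
    rw [card_filter]
  have e2 : ∑ σ : G, (univ.filter (fun y : G => y + y = σ + σ + σ - (a + b))).card ≤
      Fintype.card G := by
    have h1 : ∑ σ : G, (univ.filter (fun y : G => y + y = σ + σ + σ - (a + b))).card =
        (univ.filter (fun q : G × G => q.2 + q.2 = q.1 + q.1 + q.1 - (a + b))).card := by
      rw [card_filter, ← univ_product_univ, sum_product]
      refine sum_congr rfl fun σ _ => ?_
      rw [card_filter]
    rw [h1]
    have h2 : univ.filter (fun q : G × G => q.2 + q.2 = q.1 + q.1 + q.1 - (a + b)) ⊆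
        univ.image (fun z : G => (a + b + z + z, a + b + z + z + z)) := by
      rintro ⟨σ, y⟩ hq
      have hq2 : y + y = σ + σ + σ - (a + b) := (mem_filter.mp hq).2
      rw [mem_image]
      refine ⟨y - σ, mem_univ _, ?_⟩
      have h3 : a + b + (y - σ) + (y - σ) = σ := by
        calc a + b + (y - σ) + (y - σ) = a + b + (y + y) - σ - σ := by abel
          _ = σ := by rw [hq2]; abel
      rw [h3]
      exact Prod.ext rfl (by change σ + (y - σ) = y; abel)
    exact (card_le_card h2).trans card_image_le
  rw [e1] at hsum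
  have e3 : Fintype.card G * (Fintype.card G + 5) = Fintype.card G * (Fintype.card G + 4) +
      Fintype.card G := by ring
  omega

/-- The tuples `((a, b), (σ, y))`. -/
def tuples (A : Finset G) : Finset ((G × G) × (G × G)) :=
  univ.filter (fun w => w.1 ∈ A.offDiag ∧ w.2 ∈ goodPairs A w.1.1 w.1.2)

lemma tuples_lower (A : Finset G) :
    A.card * (A.card - 1) * (Fintype.card G * (2 * A.card)) ≤
      A.card * (A.card - 1) * (Fintype.card G * (Fintype.card G + 5)) + (tuples A).card := by
  have h1 : (tuples A).card = ∑ w ∈ A.offDiag, (goodPairs A w.1 w.2).card := by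
    have h2 : tuples A = (A.offDiag.sigma (fun w => goodPairs A w.1 w.2)).image
        (fun w => (w.1, w.2)) := by
      ext w
      rw [tuples, mem_filter, mem_image]
      constructor
      · rintro ⟨-, h3, h4⟩
        exact ⟨⟨w.1, w.2⟩, mem_sigma.mpr ⟨h3, h4⟩, rfl⟩
      · rintro ⟨⟨w1, w2⟩, h3, rfl⟩
        obtain ⟨h4, h5⟩ := mem_sigma.mp h3
        exact ⟨mem_univ _, h4, h5⟩
    rw [h2, card_image_of_injective, card_sigma]
    rintro ⟨w1, w2⟩ ⟨w1', w2'⟩ h
    obtain ⟨rfl, rfl⟩ := Prod.mk.inj h
    rfl
  have h3 : A.offDiag.card = A.card * (A.card - 1) := by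
    rw [offDiag_card, Nat.mul_sub, mul_one]
  rw [h1, ← h3, ← smul_eq_mul, ← smul_eq_mul (α := ℕ) A.offDiag.card, ← sum_const, ← sum_const,
    ← sum_add_distrib]
  exact sum_le_sum fun w _ => count_good A w.1 w.2

/-- The four points. -/
def points (w : (G × G) × (G × G)) : G × G × G × G :=
  (w.2.1 - w.1.1, w.2.1 - w.1.2, w.2.1 - w.2.2,
    w.2.1 - (w.2.1 + w.2.1 + w.2.1 - (w.1.1 + w.1.2) - w.2.2))

lemma points_injective : Function.Injective (points : (G × G) × (G × G) → G × G × G × G) := by
  rintro ⟨⟨a, b⟩, σ, y⟩ ⟨⟨a', b'⟩, σ', y'⟩ h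
  simp only [points, Prod.mk.injEq] at h
  obtain ⟨h1, h2, h3, h4⟩ := h
  have hσ : σ = σ' := by
    calc σ = (σ - a) + (σ - b) + (σ - y) + (σ - (σ + σ + σ - (a + b) - y)) := by abel
      _ = (σ' - a') + (σ' - b') + (σ' - y') + (σ' - (σ' + σ' + σ' - (a' + b') - y')) := by
          rw [h1, h2, h3, h4]
      _ = σ' := by abel
  subst hσ
  have ha : a = a' := sub_right_injective h1
  have hb : b = b' := sub_right_injective h2
  have hy : y = y' := sub_right_injective h3
  rw [ha, hb, hy]

/-- The members of a covering family which are not in the sum system. -/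
lemma tuples_upper (S : Finset G) (T : Finset (Finset G)) (hT3 : ∀ e ∈ T, e.card = 3)
    (hT : Covers T) :
    (tuples Sᶜ).card ≤ 4 * (Fintype.card G * (6 * (T \ sumTriples S).card)) := by
  have hD : ∀ e ∈ T \ sumTriples S, e.card = 3 := fun e he => hT3 e (mem_sdiff.mp he).1
  have i1 : Function.Injective (fun q : G × G × G × G => q) := fun _ _ h => h
  have i2 : Function.Injective (fun q : G × G × G × G => (q.2.1, q.1, q.2.2.1, q.2.2.2)) := by
    rintro ⟨a, b, c, d⟩ ⟨a', b', c', d'⟩ h
    simp only [Prod.mk.injEq] at h ⊢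
    tauto
  have i3 : Function.Injective (fun q : G × G × G × G => (q.2.2.1, q.1, q.2.1, q.2.2.2)) := by
    rintro ⟨a, b, c, d⟩ ⟨a', b', c', d'⟩ h
    simp only [Prod.mk.injEq] at h ⊢
    tauto
  have i4 : Function.Injective (fun q : G × G × G × G => (q.2.2.2, q.1, q.2.1, q.2.2.1)) := by
    rintro ⟨a, b, c, d⟩ ⟨a', b', c', d'⟩ h
    simp only [Prod.mk.injEq] at h ⊢
    tauto
  have u1 := four_le (T \ sumTriples S) hD _ i1
  have u2 := four_le (T \ sumTriples S) hD _ i2
  have u3 := four_le (T \ sumTriples S) hD _ i3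
  have u4 := four_le (T \ sumTriples S) hD _ i4
  have hsub : (tuples Sᶜ).image points ⊆
      (univ.filter (fun q : G × G × G × G =>
        ({q.2.1, q.2.2.1, q.2.2.2} : Finset G) ∈ T \ sumTriples S)) ∪
      ((univ.filter (fun q : G × G × G × G =>
        ({q.1, q.2.2.1, q.2.2.2} : Finset G) ∈ T \ sumTriples S)) ∪
      ((univ.filter (fun q : G × G × G × G =>
        ({q.1, q.2.1, q.2.2.2} : Finset G) ∈ T \ sumTriples S)) ∪
      (univ.filter (fun q : G × G × G × G =>
        ({q.1, q.2.1, q.2.2.1} : Finset G) ∈ T \ sumTriples S)))) := by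
    intro q hq
    obtain ⟨⟨⟨a, b⟩, σ, y⟩, hw, rfl⟩ := mem_image.mp hq
    rw [tuples, mem_filter, mem_offDiag, goodPairs, mem_filter] at hw
    obtain ⟨-, ⟨ha, hb, hab⟩, -, ⟨hy, hya, hyb⟩, ⟨hz, hza, hzb⟩, hyz⟩ := hw
    simp only at ha hb hab hy hya hyb hz hza hzb hyz
    set z : G := σ + σ + σ - (a + b) - y with hzdef
    rw [mem_compl] at ha hb hy hz
    have e1 : σ - a ≠ σ - b := fun h => hab (sub_right_injective h)
    have e2 : σ - a ≠ σ - y := fun h => hya (sub_right_injective h).symm
    have e3 : σ - a ≠ σ - z := fun h => hza (sub_right_injective h).symm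
    have e4 : σ - b ≠ σ - y := fun h => hyb (sub_right_injective h).symm
    have e5 : σ - b ≠ σ - z := fun h => hzb (sub_right_injective h).symm
    have e6 : σ - y ≠ σ - z := fun h => hyz (sub_right_injective h)
    have n1 : σ - a ∉ ({σ - b, σ - y, σ - z} : Finset G) := by simp [e1, e2, e3]
    have n2 : σ - b ∉ ({σ - y, σ - z} : Finset G) := by simp [e4, e5]
    have n3 : σ - y ∉ ({σ - z} : Finset G) := by simp [e6]
    have hX : ({σ - a, σ - b, σ - y, σ - z} : Finset G).card = 4 := by
      rw [card_insert_of_notMem n1, card_insert_of_notMem n2, card_insert_of_notMem n3,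
        card_singleton]
    obtain ⟨e, he, heX⟩ := hT _ hX
    have hsum : ∑ x ∈ ({σ - a, σ - b, σ - y, σ - z} : Finset G), x = σ := by
      rw [sum_insert n1, sum_insert n2, sum_insert n3, sum_singleton, hzdef]
      abel
    have hdiff : (({σ - a, σ - b, σ - y, σ - z} : Finset G) \ e).card = 1 := by
      rw [card_sdiff_of_subset heX, hX, hT3 e he]
    obtain ⟨x, hx⟩ := card_eq_one.mp hdiff
    have hs2 := sum_sdiff (f := fun x : G => x) heX
    rw [hsum, hx, sum_singleton] at hs2
    have hxm : x ∈ ({σ - a, σ - b, σ - y, σ - z} : Finset G) := by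
      have : x ∈ ({σ - a, σ - b, σ - y, σ - z} : Finset G) \ e := by rw [hx]; simp
      exact (mem_sdiff.mp this).1
    have hse : ∑ x ∈ e, x = σ - x := by rw [← hs2]; abel
    have heq : e = ({σ - a, σ - b, σ - y, σ - z} : Finset G).erase x := by
      rw [erase_eq, ← hx]
      ext t
      rw [mem_sdiff, mem_sdiff, not_and_not_right]
      exact ⟨fun h => ⟨heX h, fun _ => h⟩, fun h => h.2 h.1⟩
    have hDe : σ - x ∉ S → e ∈ T \ sumTriples S := by
      intro h
      rw [mem_sdiff, sumTriples, mem_filter]
      exact ⟨he, fun h2 => h (hse ▸ h2.2)⟩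
    simp only [points]
    rw [← hzdef]
    simp only [mem_insert, mem_singleton] at hxm
    rw [mem_union, mem_union, mem_union, mem_filter, mem_filter, mem_filter, mem_filter]
    simp only [mem_univ, true_and]
    rcases hxm with rfl | rfl | rfl | rfl
    · left
      have h1 : e = {σ - b, σ - y, σ - z} := by rw [heq, erase_insert n1]
      rw [← h1]
      exact hDe (by simpa using ha)
    · right; left
      have h1 : e = {σ - a, σ - y, σ - z} := by
        rw [heq]; ext t
        simp only [mem_erase, mem_insert, mem_singleton]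
        constructor
        · rintro ⟨h1, h2 | h2 | h2 | h2⟩
          · exact Or.inl h2
          · exact absurd h2 h1
          · exact Or.inr (Or.inl h2)
          · exact Or.inr (Or.inr h2)
        · rintro (rfl | rfl | rfl)
          · exact ⟨e1, by simp⟩
          · exact ⟨e4.symm, by simp⟩
          · exact ⟨e5.symm, by simp⟩
      rw [← h1]
      exact hDe (by simpa using hb)
    · right; right; left
      have h1 : e = {σ - a, σ - b, σ - z} := by
        rw [heq]; ext t
        simp only [mem_erase, mem_insert, mem_singleton]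
        constructor
        · rintro ⟨h1, h2 | h2 | h2 | h2⟩
          · exact Or.inl h2
          · exact Or.inr (Or.inl h2)
          · exact absurd h2 h1
          · exact Or.inr (Or.inr h2)
        · rintro (rfl | rfl | rfl)
          · exact ⟨e2, by simp⟩
          · exact ⟨e4, by simp⟩
          · exact ⟨e6.symm, by simp⟩
      rw [← h1]
      exact hDe (by simpa using hy)
    · right; right; right
      have h1 : e = {σ - a, σ - b, σ - y} := by
        rw [heq]; ext t
        simp only [mem_erase, mem_insert, mem_singleton]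
        constructor
        · rintro ⟨h1, h2 | h2 | h2 | h2⟩
          · exact Or.inl h2
          · exact Or.inr (Or.inl h2)
          · exact Or.inr (Or.inr h2)
          · exact absurd h2 h1
        · rintro (rfl | rfl | rfl)
          · exact ⟨e3, by simp⟩
          · exact ⟨e5, by simp⟩
          · exact ⟨e6, by simp⟩
      rw [← h1]
      exact hDe (by simpa using hz)
  have h1 := card_le_card hsub
  rw [card_image_of_injective _ points_injective] at h1
  have h2 := h1.trans (card_union_le _ _)
  have h3 := h2.trans (Nat.add_le_add_left (card_union_le _ _) _)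
  have h4 := h3.trans (Nat.add_le_add_left (Nat.add_le_add_left (card_union_le _ _) _) _)
  simp only at u1 u2 u3 u4
  omega

/-- The inequality for families close to a sum system. -/
lemma robust (S : Finset G) (T : Finset (Finset G)) (hT3 : ∀ e ∈ T, e.card = 3)
    (hT : Covers T) :
    Sᶜ.card * (Sᶜ.card - 1) * (2 * Sᶜ.card) ≤
      Sᶜ.card * (Sᶜ.card - 1) * (Fintype.card G + 5) + 24 * (T \ sumTriples S).card := by
  have h1 := tuples_lower (Sᶜ : Finset G)
  have h2 := tuples_upper S T hT3 hT
  have hN : 0 < Fintype.card G := Fintype.card_pos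
  refine Nat.le_of_mul_le_mul_left (c := Fintype.card G) ?_ hN
  calc Fintype.card G * (Sᶜ.card * (Sᶜ.card - 1) * (2 * Sᶜ.card))
      = Sᶜ.card * (Sᶜ.card - 1) * (Fintype.card G * (2 * Sᶜ.card)) := by ring
    _ ≤ Sᶜ.card * (Sᶜ.card - 1) * (Fintype.card G * (Fintype.card G + 5)) +
        4 * (Fintype.card G * (6 * (T \ sumTriples S).card)) := h1.trans (by omega)
    _ = Fintype.card G * (Sᶜ.card * (Sᶜ.card - 1) * (Fintype.card G + 5) +
        24 * (T \ sumTriples S).card) := by ring

end

/-- Turán's number is less than `N (N - 3) (N - 5) / 12` for `N ≥ 34`. -/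
lemma turan_lt (N : ℕ) (hN : 34 ≤ N) : 12 * turanNumber N < N * (N - 3) * (N - 5) := by
  unfold turanNumber
  obtain h | h | h : N % 3 = 0 ∨ N % 3 = 1 ∨ N % 3 = 2 := by omega
  · obtain ⟨r, rfl⟩ : ∃ r, N = 3 * (r + 12) := ⟨N / 3 - 12, by omega⟩
    rw [if_pos h, show 3 * (r + 12) / 3 = r + 12 by omega,
      show r + 12 - 1 = r + 11 by omega, show 2 * (r + 12) - 1 = 2 * r + 23 by omega,
      show 3 * (r + 12) - 3 = 3 * r + 33 by omega, show 3 * (r + 12) - 5 = 3 * r + 31 by omega]
    nlinarith [Nat.zero_le r, Nat.zero_le (r ^ 2), Nat.zero_le (r ^ 3)]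
  · obtain ⟨r, rfl⟩ : ∃ r, N = 3 * r + 34 := ⟨N / 3 - 11, by omega⟩
    rw [if_neg (by omega), if_pos h, show (3 * r + 34) / 3 = r + 11 by omega,
      show 2 * (r + 11) - 1 = 2 * r + 21 by omega,
      show 3 * r + 34 - 3 = 3 * r + 31 by omega, show 3 * r + 34 - 5 = 3 * r + 29 by omega]
    nlinarith [Nat.zero_le r, Nat.zero_le (r ^ 2), Nat.zero_le (r ^ 3)]
  · obtain ⟨r, rfl⟩ : ∃ r, N = 3 * r + 35 := ⟨N / 3 - 11, by omega⟩
    rw [if_neg (by omega), if_neg (by omega), show (3 * r + 35) / 3 = r + 11 by omega,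
      show 3 * r + 35 - 3 = 3 * r + 32 by omega, show 3 * r + 35 - 5 = 3 * r + 30 by omega]
    nlinarith [Nat.zero_le r, Nat.zero_le (r ^ 2), Nat.zero_le (r ^ 3)]

lemma turan_le (N : ℕ) : 27 * turanNumber N ≤ 2 * N ^ 3 := by
  unfold turanNumber
  obtain h | h | h : N % 3 = 0 ∨ N % 3 = 1 ∨ N % 3 = 2 := by omega
  · obtain ⟨r, rfl⟩ : ∃ r, N = 3 * r := ⟨N / 3, by omega⟩
    rw [if_pos h, show 3 * r / 3 = r by omega]
    calc 27 * (r * (r - 1) * (2 * r - 1)) ≤ 27 * (r * r * (2 * r)) := by
          apply Nat.mul_le_mul_left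
          exact Nat.mul_le_mul (Nat.mul_le_mul_left _ (Nat.sub_le _ _)) (Nat.sub_le _ _)
      _ = 2 * (3 * r) ^ 3 := by ring
  · obtain ⟨r, rfl⟩ : ∃ r, N = 3 * r + 1 := ⟨N / 3, by omega⟩
    rw [if_neg (by omega), if_pos h, show (3 * r + 1) / 3 = r by omega]
    calc 27 * (r ^ 2 * (2 * r - 1)) ≤ 27 * (r ^ 2 * (2 * r)) := by
          apply Nat.mul_le_mul_left
          exact Nat.mul_le_mul_left _ (Nat.sub_le _ _)
      _ = 2 * (3 * r) ^ 3 := by ring
      _ ≤ 2 * (3 * r + 1) ^ 3 := Nat.mul_le_mul_left _ (Nat.pow_le_pow_left (by omega) 3)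
  · obtain ⟨r, rfl⟩ : ∃ r, N = 3 * r + 2 := ⟨N / 3, by omega⟩
    rw [if_neg (by omega), if_neg (by omega), show (3 * r + 2) / 3 = r by omega]
    nlinarith [Nat.zero_le r, Nat.zero_le (r ^ 2), Nat.zero_le (r ^ 3)]

lemma real_step {N a D M t F : ℝ} (hN : 1000 ≤ N) (ha : 0 ≤ a) (hD : 0 ≤ D) (hM : 0 ≤ M)
    (h2 : (N - a) * (N * (N - 3)) ≤ 6 * F) (h3 : F + D = t + M)
    (h4 : 1000 * (D + M) ≤ N ^ 3) (h5 : 27 * t ≤ 2 * N ^ 3)
    (h1 : a * (a - 1) * (2 * a) ≤ a * (a - 1) * (N + 5) + 24 * D) : False := by
  have hN0 : 0 < N := by linarith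
  have k2 : 1000 * N ^ 2 ≤ N ^ 3 := by
    have := mul_le_mul_of_nonneg_right hN (sq_nonneg N)
    calc 1000 * N ^ 2 ≤ N * N ^ 2 := this
      _ = N ^ 3 := by ring
  have k3 : 0 < N ^ 3 := by positivity
  have haN : 0 ≤ a * N := by positivity
  have e1 : (N - a) * (N * (N - 3)) = N ^ 3 - 3 * N ^ 2 - a * N ^ 2 + 3 * (a * N) := by ring
  rw [e1] at h2
  have l1 : a * N ^ 2 ≥ (5 / 9) * N ^ 3 - 3 * N ^ 2 - 6 * M + 6 * D := by linarith
  have l2 : 0.54 * N ^ 3 ≤ a * N ^ 2 := by linarith
  have l3 : 0.54 * N ≤ a := by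
    by_contra hcon
    push Not at hcon
    have h6 : a * N ^ 2 < 0.54 * N * N ^ 2 := mul_lt_mul_of_pos_right hcon (by positivity)
    have h7 : 0.54 * N * N ^ 2 = 0.54 * N ^ 3 := by ring
    linarith
  have l4 : 0 ≤ 2 * a - N - 5 := by linarith
  have l5 : 0.2495 * N ^ 2 ≤ a * (a - 1) := by
    have h6 : (0.54 * N) * (0.54 * N - 1) ≤ a * (a - 1) :=
      mul_le_mul l3 (by linarith) (by linarith) ha
    nlinarith
  have l6 : 0.2495 * N ^ 2 * (2 * a - N - 5) ≤ a * (a - 1) * (2 * a - N - 5) :=
    mul_le_mul_of_nonneg_right l5 l4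
  have e2 : 0.2495 * N ^ 2 * (2 * a - N - 5) =
      0.499 * (a * N ^ 2) - 0.2495 * N ^ 3 - 1.2475 * N ^ 2 := by ring
  have e3 : a * (a - 1) * (2 * a - N - 5) = a * (a - 1) * (2 * a) - a * (a - 1) * (N + 5) := by
    ring
  rw [e2, e3] at l6
  linarith

lemma near {G : Type} [AddCommGroup G] [Fintype G] [DecidableEq G] (S : Finset G)
    (T : Finset (Finset G)) (hT3 : ∀ e ∈ T, e.card = 3) (hT : Covers T)
    (hN : 1000 ≤ Fintype.card G)
    (h : 1000 * ((T \ sumTriples S).card + (sumTriples S \ T).card) ≤ Fintype.card G ^ 3) :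
    turanNumber (Fintype.card G) < T.card := by
  by_contra hcon
  push Not at hcon
  have h1 := robust S T hT3 hT
  have h2 := card_sumTriples S
  have h3a := card_sdiff_add_card_inter T (sumTriples S)
  have h3b := card_sdiff_add_card_inter (sumTriples S) T
  rw [inter_comm] at h3b
  have h3 : (sumTriples S).card + (T \ sumTriples S).card = T.card + (sumTriples S \ T).card := by
    omega
  have h5 : 27 * T.card ≤ 2 * Fintype.card G ^ 3 :=
    (Nat.mul_le_mul_left _ hcon).trans (turan_le _)
  have hA : Sᶜ.card = Fintype.card G - S.card := card_compl S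
  have hSle : S.card ≤ Fintype.card G := card_le_univ S
  have hS : (S.card : ℝ) = (Fintype.card G : ℝ) - (Sᶜ.card : ℝ) := by
    rw [hA, Nat.cast_sub hSle]; ring
  have hcast : ((Fintype.card G - 3 : ℕ) : ℝ) = (Fintype.card G : ℝ) - 3 := by
    rw [Nat.cast_sub (by omega)]; norm_num
  have g2 : ((Fintype.card G : ℝ) - (Sᶜ.card : ℝ)) *
      ((Fintype.card G : ℝ) * ((Fintype.card G : ℝ) - 3)) ≤ 6 * ((sumTriples S).card : ℝ) := by
    rw [← hS, ← hcast]
    exact_mod_cast h2
  have g1 : (Sᶜ.card : ℝ) * ((Sᶜ.card : ℝ) - 1) * (2 * (Sᶜ.card : ℝ)) ≤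
      (Sᶜ.card : ℝ) * ((Sᶜ.card : ℝ) - 1) * ((Fintype.card G : ℝ) + 5) +
        24 * ((T \ sumTriples S).card : ℝ) := by
    rcases Nat.eq_zero_or_pos Sᶜ.card with h0 | hpos
    · rw [h0]; simp
    · have hc : ((Sᶜ.card - 1 : ℕ) : ℝ) = (Sᶜ.card : ℝ) - 1 := by
        rw [Nat.cast_sub hpos]; norm_num
      rw [← hc]
      exact_mod_cast h1
  exact real_step (N := (Fintype.card G : ℝ)) (a := (Sᶜ.card : ℝ))
    (D := ((T \ sumTriples S).card : ℝ)) (M := ((sumTriples S \ T).card : ℝ))
    (t := (T.card : ℝ)) (F := ((sumTriples S).card : ℝ)) (by exact_mod_cast hN) (by positivity)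
    (by positivity) (by positivity) g2 (by exact_mod_cast h3) (by exact_mod_cast h)
    (by exact_mod_cast h5) g1

/-- Sum systems in abelian groups that cover all four-element sets. -/
theorem result :
    (∀ (G : Type) [AddCommGroup G] [Fintype G] [DecidableEq G] (S : Finset G),
      Covers (sumTriples S) →
        Fintype.card G ≤ 2 * S.card + 5 ∧
        Fintype.card G * (Fintype.card G - 3) * (Fintype.card G - 5) ≤
          12 * (sumTriples S).card ∧
        (34 ≤ Fintype.card G → turanNumber (Fintype.card G) < (sumTriples S).card) ∧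
        (¬ 3 ∣ Fintype.card G → Fintype.card G ≤ S.card + 3)) ∧
    -- families close to a sum system
    (∀ (G : Type) [AddCommGroup G] [Fintype G] [DecidableEq G] (S : Finset G)
      (T : Finset (Finset G)), (∀ e ∈ T, e.card = 3) → Covers T → 1000 ≤ Fintype.card G →
        1000 * ((T \ sumTriples S).card + (sumTriples S \ T).card) ≤ Fintype.card G ^ 3 →
        turanNumber (Fintype.card G) < T.card) ∧
    (∀ (K : Type) [AddCommGroup K] [Fintype K] [DecidableEq K],
      ∃ S : Finset (ZMod 3 × K), 3 * S.card = 2 * Fintype.card (ZMod 3 × K) ∧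
        Covers (sumTriples S)) := by
  refine ⟨?_, ?_, ?_⟩
  · intro G _ _ _ S hS
    have h1 := card_bound S hS
    have h2 : Fintype.card G * (Fintype.card G - 3) * (Fintype.card G - 5) ≤
        12 * (sumTriples S).card := by
      have h3 := card_sumTriples S
      have h4 : Fintype.card G - 5 ≤ 2 * S.card := by omega
      calc Fintype.card G * (Fintype.card G - 3) * (Fintype.card G - 5)
          ≤ Fintype.card G * (Fintype.card G - 3) * (2 * S.card) := Nat.mul_le_mul_left _ h4
        _ = 2 * (S.card * (Fintype.card G * (Fintype.card G - 3))) := by ring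
        _ ≤ 2 * (6 * (sumTriples S).card) := Nat.mul_le_mul_left _ h3
        _ = 12 * (sumTriples S).card := by ring
    refine ⟨h1, h2, fun hN => ?_, coprime_bound S hS⟩
    have h5 := turan_lt _ hN
    omega
  · intro G _ _ _ S T hT3 hT hN h
    exact near S T hT3 hT hN h
  · intro K _ _ _
    refine ⟨univ.filter (fun x => x.1 ≠ 1), ?_, ?_⟩
    · have h1 : (univ.filter (fun x : ZMod 3 × K => x.1 ≠ 1)) =
          (univ.filter (fun a : ZMod 3 => a ≠ 1)) ×ˢ (univ : Finset K) := by
        ext x
        simp only [mem_filter, mem_univ, true_and, mem_product, and_true]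
      rw [h1, card_product, card_univ, Fintype.card_prod, ZMod.card]
      have h2 : (univ.filter (fun a : ZMod 3 => a ≠ 1)).card = 2 := by decide
      rw [h2]
      ring
    · intro X hX
      by_contra hcon
      push Not at hcon
      have key : ∀ x ∈ X, (∑ y ∈ X, y).1 - x.1 = 1 := by
        intro x hx
        have h1 := hcon (X.erase x)
        by_contra hne
        refine h1 ?_ (erase_subset _ _)
        rw [sumTriples, mem_filter, mem_powersetCard, mem_filter]
        refine ⟨⟨subset_univ _, by rw [card_erase_of_mem hx, hX]⟩, mem_univ _, ?_⟩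
        have h2 := add_sum_erase X (fun y => y) hx
        have h3 : ∑ y ∈ X.erase x, y = ∑ y ∈ X, y - x := by
          rw [← h2]; abel
        rw [h3, Prod.fst_sub]
        exact hne
      have h1 : ∑ x ∈ X, ((∑ y ∈ X, y).1 - x.1) = ∑ x ∈ X, (1 : ZMod 3) := sum_congr rfl key
      rw [sum_sub_distrib, sum_const, sum_const, hX, ← Prod.fst_sum] at h1
      revert h1
      generalize (∑ y ∈ X, y).1 = t
      revert t
      decide

end Pool.Agent.Helper762SS.AbelianSumSystems
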