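import Pool.Agent.Helper762_SS.Lower

set_option autoImplicit false

/-!
# Caps in `F_3^d`
-/

namespace Pool.Agent.Helper762SS

open Finset

/-- There are `m` points of `F_3^d` without a line. -/
def HasCap (d m : ℕ) : Prop :=
  ∃ f : Fin m → (Fin d → ZMod 3), ∀ x y z, f x + f y + f z = 0 → x = y ∧ y = z

lemma hasCap_zero : HasCap 0 1 :=
  ⟨fun _ _ => 0, fun _ _ _ _ => ⟨Subsingleton.elim _ _, Subsingleton.elim _ _⟩⟩

lemma two_vals : ∀ a b c : Fin 2, ((a.val : ZMod 3) + (b.val : ZMod 3) + (c.val : ZMod 3) = 0) →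
    a = b ∧ b = c := by decide

lemma HasCap.double {d m : ℕ} (h : HasCap d m) : HasCap (d + 1) (m * 2) := by
  obtain ⟨f, hf⟩ := h
  refine ⟨fun i => Fin.cons ((finProdFinEquiv.symm i).2.val : ZMod 3)
    (f (finProdFinEquiv.symm i).1), ?_⟩
  intro x y z hxyz
  have h0 := congrFun hxyz 0
  simp only [Pi.add_apply, Fin.cons_zero, Pi.zero_apply] at h0
  have h1 : f (finProdFinEquiv.symm x).1 + f (finProdFinEquiv.symm y).1 +
      f (finProdFinEquiv.symm z).1 = 0 := by
    funext j
    have := congrFun hxyz j.succ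
    simpa only [Pi.add_apply, Fin.cons_succ, Pi.zero_apply] using this
  obtain ⟨a1, a2⟩ := two_vals _ _ _ h0
  obtain ⟨b1, b2⟩ := hf _ _ _ h1
  exact ⟨finProdFinEquiv.symm.injective (Prod.ext b1 a1),
    finProdFinEquiv.symm.injective (Prod.ext b2 a2)⟩

/-- The elliptic quadric. -/
def quad (i : Fin 9) : Fin 3 → ZMod 3 :=
  ![((i.val : ℕ) : ZMod 3), ((i.val / 3 : ℕ) : ZMod 3),
    ((i.val : ℕ) : ZMod 3) ^ 2 + ((i.val / 3 : ℕ) : ZMod 3) ^ 2]

lemma hasCap_three : HasCap 3 9 :=
  ⟨quad, by unfold quad; decide +kernel⟩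

lemma hasCap_two : HasCap 2 4 := hasCap_zero.double.double

lemma hasCap_add (e : ℕ) : HasCap (3 + e) (9 * 2 ^ e) := by
  induction e with
  | zero => exact hasCap_three
  | succ e ih =>
    have := ih.double
    rw [mul_assoc, ← pow_succ] at this
    exact this

lemma ttt : ∀ t : ZMod 3, t + t + t = 0 := by decide

/-- A cap gives a set of points. -/
lemma cap_fail {E : Type*} [AddCommGroup E] [Module (ZMod 3) E] [Fintype E] [DecidableEq E]
    {n d m : ℕ} (hE : Fintype.card E = 3 ^ n) (h : HasCap d m) (S : Finset E)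
    (hS : (S.erase 0).card < 3 ^ (n - d) - 1) :
    ∃ X : Finset E, X.card = m * 2 ∧ ∀ Y ⊆ X, Y.card = 3 → ∑ y ∈ Y, y ∉ S := by
  classical
  obtain ⟨f, hf⟩ := h
  have hp : Fact (Nat.Prime 3) := ⟨Nat.prime_three⟩
  have key := lower (p := 3) (d := d) (D := 0) hE (A := Fin d → ZMod 3)
    (Module.finrank_fin_fun (ZMod 3)) (fun q : Fin m × Fin 2 => f q.1) 3 ?_ ?_ S
    (by rw [Nat.add_zero]; omega)
  · simpa using key
  · intro J hJ h0
    obtain ⟨a, b, c, hab, hac, hbc, rfl⟩ := Finset.card_eq_three.mp hJ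
    rw [sum_insert (by simp [hab, hac]), sum_insert (by simp [hbc]), sum_singleton,
      ← add_assoc] at h0
    obtain ⟨e1, e2⟩ := hf _ _ _ h0
    have h1 : a.2 ≠ b.2 := fun h => hab (Prod.ext e1 h)
    have h2 : a.2 ≠ c.2 := fun h => hac (Prod.ext (e1.trans e2) h)
    have h3 : b.2 ≠ c.2 := fun h => hbc (Prod.ext e2 h)
    revert h1 h2 h3
    generalize a.2 = u
    generalize b.2 = v
    generalize c.2 = w
    revert u v w
    decide
  · intro a
    have hinj : Function.Injective f := by
      intro x y hxy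
      exact (hf x x y (by
        rw [← hxy]
        funext j
        exact ttt _)).2
    have hsub : (univ.filter (fun q : Fin m × Fin 2 => f q.1 = a)).card ≤
        (univ : Finset (Fin 2)).card := by
      apply card_le_card_of_injOn (fun q => q.2)
      · intro q _; simp
      · intro q hq q' hq' h
        simp only [coe_filter, mem_univ, true_and, Set.mem_ofPred_eq] at hq hq'
        exact Prod.ext (hinj (hq.trans hq'.symm)) h
    rw [card_univ, Fintype.card_fin] at hsub
    simp only [zero_add, pow_one]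
    omega

end Pool.Agent.Helper762SS
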