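import Pool.Agent.Helper762_SS.Codes

set_option autoImplicit false

/-!
# Libraries of point sets with few sums of three points
-/

namespace Pool.Agent.Helper762SS

def lib4 : List (List ℕ × ℕ) :=
  [([0, 3, 4, 7], 166),
   ([1, 3, 4, 6], 278)]

def lib6 : List (List ℕ × ℕ) :=
  [([5, 6, 14, 15, 21, 26], 113467630),
   ([0, 3, 16, 17, 18, 21], 20487606)]

def lib5 : List (List ℕ × ℕ) :=
  [([1, 6, 15, 19, 25], 75555122),
   ([15, 19, 21, 22, 24], 56099094),
   ([9, 14, 15, 17, 24], 219302),
   ([0, 6, 11, 13, 21], 2524340),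
   ([6, 11, 13, 18, 19], 8728902),
   ([0, 6, 14, 20, 21], 100944178),
   ([2, 5, 11, 16, 22], 68164914),
   ([2, 3, 11, 12, 17], 97133570)]

def lib11 : List (List ℕ × ℕ) :=
  [([11, 15, 26, 29, 37, 42, 44, 55, 56, 71, 78], 2402344789644976188026814),
   ([0, 6, 19, 31, 35, 44, 52, 65, 74, 75, 78], 1359631021361608460845052),
   ([15, 21, 24, 26, 35, 36, 39, 56, 59, 72, 77], 2018736584599004767972278),
   ([3, 25, 31, 36, 37, 40, 45, 60, 61, 66, 73], 2077158143352949219094398),
   ([0, 6, 10, 22, 26, 32, 33, 49, 54, 59, 80], 2391841387213174729332732),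
   ([4, 9, 18, 24, 28, 31, 42, 49, 51, 72, 73], 1132768197979173417118974)]

def lib9 : List (List ℕ × ℕ) :=
  [([27, 54, 58, 60, 61, 63, 70, 76, 78], 2259573206786074688089438),
   ([4, 8, 12, 15, 17, 21, 22, 24, 44], 16183637953935870),
   ([11, 13, 18, 30, 45, 46, 57, 65, 67], 460678222508391040204200),
   ([31, 57, 60, 61, 64, 69, 70, 73, 75], 1473282596127251459984894),
   ([6, 10, 17, 24, 31, 43, 55, 57, 77], 989472026799122769204468),
   ([0, 4, 5, 6, 14, 15, 18, 22, 67], 2336194730671981358464238),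
   ([4, 9, 15, 23, 32, 41, 51, 54, 76], 1022601844677620071454938)]


/-- All members of the list are good and avoid the numbers in the list `Z`. -/
def allGood (N k : ℕ) (Z : List ℕ) (L : List (List ℕ × ℕ)) : Bool :=
  L.all fun q => good N k q && Z.all fun z => !q.2.testBit z

lemma allGood_spec {N k : ℕ} {Z : List ℕ} {L : List (List ℕ × ℕ)} (h : allGood N k Z L = true)
    (q : List ℕ × ℕ) (hq : q ∈ L) : good N k q = true ∧ ∀ z ∈ Z, q.2.testBit z = false := by
  unfold allGood at h
  simp only [List.all_eq_true, Bool.and_eq_true, Bool.not_eq_true'] at h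
  exact h q hq

lemma lib4_good : allGood 9 4 [0, 3] lib4 = true := by decide +kernel
lemma lib6_good : allGood 27 6 [0, 9] lib6 = true := by decide +kernel
lemma lib5_good : allGood 27 5 [0, 3, 9] lib5 = true := by decide +kernel
lemma lib11_good : allGood 81 11 [0, 27] lib11 = true := by decide +kernel
lemma lib9_good : allGood 81 9 [0, 9, 27] lib9 = true := by decide +kernel

lemma lib4_cov : cov1 3 9 lib4 = true := by decide +kernel
lemma lib6_cov : cov1 9 27 lib6 = true := by decide +kernel
lemma lib5_cov : cov3 9 27 lib5 = true := by decide +kernel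
lemma lib11_cov : cov1 27 81 lib11 = true := by decide +kernel
lemma lib9_cov : cov2 27 81 lib9 = true := by decide +kernel

end Pool.Agent.Helper762SS
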