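import Pool.Agent.Helper762_SS.Layer
import Pool.Agent.Helper762_SS.Libs

set_option autoImplicit false

/-!
# The cases `k = 4, 5, 6, 9, 11`
-/

namespace Pool.Agent.Helper762SS

open Finset

variable {E : Type*} [AddCommGroup E] [Module (ZMod 3) E] [Fintype E] [DecidableEq E]

lemma cardV0 : Fintype.card PUnit.{1} = 3 ^ 0 := by simp
lemma cardV1 : Fintype.card V1 = 3 ^ 1 := by simp [V1]
lemma cardV2 : Fintype.card V2 = 3 ^ 2 := by simp [V2, V1]
lemma cardV3 : Fintype.card V3 = 3 ^ 3 := by simp [V3, V2, V1]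

lemma mem_T (S : Finset E) {V : Type} [AddCommGroup V] [Module (ZMod 3) V]
    (Ψ : V →ₗ[ZMod 3] E) (hΨ : Function.Injective Ψ) {v : V} (hv : v ≠ 0) (h : Ψ v ∈ S) :
    Ψ v ∈ S.erase 0 := by
  rw [mem_erase]
  refine ⟨?_, h⟩
  intro h0
  exact hv (hΨ (by rw [h0, map_zero]))

lemma p3 {n i : ℕ} (h : i + 1 ≤ n) : 3 ^ (n - i) = 3 * 3 ^ (n - (i + 1)) := by
  rw [show n - i = (n - (i + 1)) + 1 by omega, pow_succ, mul_comm]

lemma exp_lt {n i c : ℕ} {T : Finset E} (h : 2 * T.card < c * (3 ^ (n - i) - 1)) : i < n := by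
  by_contra hcon
  have : n - i = 0 := by omega
  rw [this] at h
  simp at h

lemma case4 {n : ℕ} (hE : Fintype.card E = 3 ^ n) (S : Finset E)
    (hS : 2 * (S.erase 0).card < 3 * (3 ^ (n - 1) - 1)) :
    ∃ X : Finset E, X.card = 4 ∧ ∀ Y ⊆ X, Y.card = 3 → ∑ y ∈ Y, y ∉ S := by
  have hn := exp_lt hS
  have e0 := p3 (n := n) (i := 0) (by omega)
  simp only [zero_add, Nat.sub_zero] at e0
  obtain ⟨Φ1, i1, b1, -, h1⟩ := layer hE 0 cardV0 (0 : PUnit.{1} →ₗ[ZMod 3] E)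
    (fun _ _ _ => rfl) (S.erase 0) 1 (by simp only [Nat.sub_zero]; omega) (fun _ => False)
    (by intro v hv; simp at hv)
  obtain ⟨Φ2, i2, b2, c2, h2⟩ := layer hE 1 cardV1 Φ1 i1 (S.erase 0) 3 hS (fun _ => False)
    (by
      intro v hv
      rcases h1 v hv with h | h | ⟨j, hj, -⟩
      · exact h.2
      · omega
      · omega)
  obtain ⟨q, hq, hb⟩ := cov1_spec lib4_cov (enc2 (b2 0)) (top2 (c2 0)) (code2.lt _)
  obtain ⟨g, z⟩ := allGood_spec lib4_good q hq
  refine from_good code2 Φ2 i2 S q g ?_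
  intro v hv
  change q.2.testBit (enc2 v) = false
  by_cases hv0 : v = 0
  · subst hv0
    exact z 0 (by simp)
  · rcases h2 v (mem_T S Φ2 i2 hv0 hv) with h | ⟨-, h⟩ | ⟨j, hj, h⟩
    · exact h.2.elim
    · rw [h]
      exact z 3 (by simp)
    · obtain rfl : j = 0 := by omega
      rw [h]
      exact hb

lemma case6 {n : ℕ} (hE : Fintype.card E = 3 ^ n) (S : Finset E)
    (hS : 2 * (S.erase 0).card < 3 * (3 ^ (n - 2) - 1)) :
    ∃ X : Finset E, X.card = 6 ∧ ∀ Y ⊆ X, Y.card = 3 → ∑ y ∈ Y, y ∉ S := by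
  have hn := exp_lt hS
  have e0 := p3 (n := n) (i := 0) (by omega)
  have e1 := p3 (n := n) (i := 1) (by omega)
  simp only [zero_add, Nat.sub_zero, one_add_one_eq_two] at e0 e1
  obtain ⟨Φ1, i1, b1, -, h1⟩ := layer hE 0 cardV0 (0 : PUnit.{1} →ₗ[ZMod 3] E)
    (fun _ _ _ => rfl) (S.erase 0) 1 (by simp only [Nat.sub_zero]; omega) (fun _ => False)
    (by intro v hv; simp at hv)
  obtain ⟨Φ2, i2, b2, -, h2⟩ := layer hE 1 cardV1 Φ1 i1 (S.erase 0) 1 (by omega) (fun _ => False)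
    (by
      intro v hv
      rcases h1 v hv with h | h | ⟨j, hj, -⟩
      · exact h.2
      · omega
      · omega)
  obtain ⟨Φ3, i3, b3, c3, h3⟩ := layer hE 2 cardV2 Φ2 i2 (S.erase 0) 3 hS (fun _ => False)
    (by
      intro v hv
      rcases h2 v hv with h | h | ⟨j, hj, -⟩
      · exact h.2
      · omega
      · omega)
  obtain ⟨q, hq, hb⟩ := cov1_spec lib6_cov (enc3 (b3 0)) (top3 (c3 0)) (code3.lt _)
  obtain ⟨g, z⟩ := allGood_spec lib6_good q hq
  refine from_good code3 Φ3 i3 S q g ?_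
  intro v hv
  change q.2.testBit (enc3 v) = false
  by_cases hv0 : v = 0
  · subst hv0
    exact z 0 (by simp)
  · rcases h3 v (mem_T S Φ3 i3 hv0 hv) with h | ⟨-, h⟩ | ⟨j, hj, h⟩
    · exact h.2.elim
    · rw [h]
      exact z 9 (by simp)
    · obtain rfl : j = 0 := by omega
      rw [h]
      exact hb

lemma case5 {n : ℕ} (hE : Fintype.card E = 3 ^ n) (S : Finset E)
    (hS : 2 * (S.erase 0).card < 5 * (3 ^ (n - 2) - 1)) :
    ∃ X : Finset E, X.card = 5 ∧ ∀ Y ⊆ X, Y.card = 3 → ∑ y ∈ Y, y ∉ S := by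
  have hn := exp_lt hS
  have e0 := p3 (n := n) (i := 0) (by omega)
  have e1 := p3 (n := n) (i := 1) (by omega)
  simp only [zero_add, Nat.sub_zero, one_add_one_eq_two] at e0 e1
  obtain ⟨Φ1, i1, b1, -, h1⟩ := layer hE 0 cardV0 (0 : PUnit.{1} →ₗ[ZMod 3] E)
    (fun _ _ _ => rfl) (S.erase 0) 1 (by simp only [Nat.sub_zero]; omega) (fun _ => False)
    (by intro v hv; simp at hv)
  obtain ⟨Φ2, i2, b2, -, h2⟩ := layer hE 1 cardV1 Φ1 i1 (S.erase 0) 2 (by omega) (fun _ => False)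
    (by
      intro v hv
      rcases h1 v hv with h | h | ⟨j, hj, -⟩
      · exact h.2
      · omega
      · omega)
  obtain ⟨Φ3, i3, b3, c3, h3⟩ := layer hE 2 cardV2 Φ2 i2 (S.erase 0) 5 hS (fun w => w = (0, 1))
    (by
      intro v hv
      rcases h2 v hv with h | h | ⟨j, hj, -⟩
      · exact h.2.elim
      · exact h.2
      · omega)
  obtain ⟨q, hq, hb⟩ := cov3_spec lib5_cov (enc3 (b3 0)) (enc3 (b3 1)) (enc3 (b3 2))
    (top3 (c3 0)) (code3.lt _) (top3 (c3 1)) (code3.lt _) (top3 (c3 2)) (code3.lt _)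
  obtain ⟨g, z⟩ := allGood_spec lib5_good q hq
  refine from_good code3 Φ3 i3 S q g ?_
  intro v hv
  change q.2.testBit (enc3 v) = false
  by_cases hv0 : v = 0
  · subst hv0
    exact z 0 (by simp)
  · rcases h3 v (mem_T S Φ3 i3 hv0 hv) with h | ⟨-, h⟩ | ⟨j, hj, h⟩
    · have : v = ((0, 1), 0) := Prod.ext h.2 h.1
      rw [this]
      exact z 3 (by simp)
    · rw [h]
      exact z 9 (by simp)
    · rw [h]
      have : j = 0 ∨ j = 1 ∨ j = 2 := by omega
      rcases this with rfl | rfl | rfl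
      · exact hb.1
      · exact hb.2.1
      · exact hb.2.2

lemma case11 {n : ℕ} (hE : Fintype.card E = 3 ^ n) (S : Finset E)
    (hS : 2 * (S.erase 0).card < 3 * (3 ^ (n - 3) - 1)) :
    ∃ X : Finset E, X.card = 11 ∧ ∀ Y ⊆ X, Y.card = 3 → ∑ y ∈ Y, y ∉ S := by
  have hn := exp_lt hS
  have e0 := p3 (n := n) (i := 0) (by omega)
  have e1 := p3 (n := n) (i := 1) (by omega)
  have e2 := p3 (n := n) (i := 2) (by omega)
  simp only [zero_add, Nat.sub_zero, Nat.reduceAdd] at e0 e1 e2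
  obtain ⟨Φ1, i1, b1, -, h1⟩ := layer hE 0 cardV0 (0 : PUnit.{1} →ₗ[ZMod 3] E)
    (fun _ _ _ => rfl) (S.erase 0) 1 (by simp only [Nat.sub_zero]; omega) (fun _ => False)
    (by intro v hv; simp at hv)
  obtain ⟨Φ2, i2, b2, -, h2⟩ := layer hE 1 cardV1 Φ1 i1 (S.erase 0) 1 (by omega) (fun _ => False)
    (by
      intro v hv
      rcases h1 v hv with h | h | ⟨j, hj, -⟩
      · exact h.2
      · omega
      · omega)
  obtain ⟨Φ3, i3, b3, -, h3⟩ := layer hE 2 cardV2 Φ2 i2 (S.erase 0) 1 (by omega) (fun _ => False)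
    (by
      intro v hv
      rcases h2 v hv with h | h | ⟨j, hj, -⟩
      · exact h.2
      · omega
      · omega)
  obtain ⟨Φ4, i4, b4, c4, h4⟩ := layer hE 3 cardV3 Φ3 i3 (S.erase 0) 3 hS (fun _ => False)
    (by
      intro v hv
      rcases h3 v hv with h | h | ⟨j, hj, -⟩
      · exact h.2
      · omega
      · omega)
  obtain ⟨q, hq, hb⟩ := cov1_spec lib11_cov (enc4 (b4 0)) (top4 (c4 0)) (code4.lt _)
  obtain ⟨g, z⟩ := allGood_spec lib11_good q hq
  refine from_good code4 Φ4 i4 S q g ?_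
  intro v hv
  change q.2.testBit (enc4 v) = false
  by_cases hv0 : v = 0
  · subst hv0
    exact z 0 (by simp)
  · rcases h4 v (mem_T S Φ4 i4 hv0 hv) with h | ⟨-, h⟩ | ⟨j, hj, h⟩
    · exact h.2.elim
    · rw [h]
      exact z 27 (by simp)
    · obtain rfl : j = 0 := by omega
      rw [h]
      exact hb

lemma case9 {n : ℕ} (hE : Fintype.card E = 3 ^ n) (S : Finset E)
    (hS : 2 * (S.erase 0).card < 4 * (3 ^ (n - 3) - 1)) :
    ∃ X : Finset E, X.card = 9 ∧ ∀ Y ⊆ X, Y.card = 3 → ∑ y ∈ Y, y ∉ S := by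
  have hn := exp_lt hS
  have e0 := p3 (n := n) (i := 0) (by omega)
  have e1 := p3 (n := n) (i := 1) (by omega)
  have e2 := p3 (n := n) (i := 2) (by omega)
  simp only [zero_add, Nat.sub_zero, Nat.reduceAdd] at e0 e1 e2
  obtain ⟨Φ1, i1, b1, -, h1⟩ := layer hE 0 cardV0 (0 : PUnit.{1} →ₗ[ZMod 3] E)
    (fun _ _ _ => rfl) (S.erase 0) 1 (by simp only [Nat.sub_zero]; omega) (fun _ => False)
    (by intro v hv; simp at hv)
  obtain ⟨Φ2, i2, b2, -, h2⟩ := layer hE 1 cardV1 Φ1 i1 (S.erase 0) 1 (by omega) (fun _ => False)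
    (by
      intro v hv
      rcases h1 v hv with h | h | ⟨j, hj, -⟩
      · exact h.2
      · omega
      · omega)
  obtain ⟨Φ3, i3, b3, -, h3⟩ := layer hE 2 cardV2 Φ2 i2 (S.erase 0) 2 (by omega) (fun _ => False)
    (by
      intro v hv
      rcases h2 v hv with h | h | ⟨j, hj, -⟩
      · exact h.2
      · omega
      · omega)
  obtain ⟨Φ4, i4, b4, c4, h4⟩ := layer hE 3 cardV3 Φ3 i3 (S.erase 0) 4 hS (fun w => w = (0, 1))
    (by
      intro v hv
      rcases h3 v hv with h | h | ⟨j, hj, -⟩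
      · exact h.2.elim
      · exact h.2
      · omega)
  obtain ⟨q, hq, hb⟩ := cov2_spec lib9_cov (enc4 (b4 0)) (enc4 (b4 1))
    (top4 (c4 0)) (code4.lt _) (top4 (c4 1)) (code4.lt _)
  obtain ⟨g, z⟩ := allGood_spec lib9_good q hq
  refine from_good code4 Φ4 i4 S q g ?_
  intro v hv
  change q.2.testBit (enc4 v) = false
  by_cases hv0 : v = 0
  · subst hv0
    exact z 0 (by simp)
  · rcases h4 v (mem_T S Φ4 i4 hv0 hv) with h | ⟨-, h⟩ | ⟨j, hj, h⟩
    · have : v = ((0, 1), 0) := Prod.ext h.2 h.1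
      rw [this]
      exact z 9 (by simp)
    · rw [h]
      exact z 27 (by simp)
    · rw [h]
      have : j = 0 ∨ j = 1 := by omega
      rcases this with rfl | rfl
      · exact hb.1
      · exact hb.2

end Pool.Agent.Helper762SS
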