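import Mathlib

set_option autoImplicit false

/-!
# Subspaces which meet a small set in few points

Counting lemmas for sets `S` in a finite vector space over `ZMod p`: if `S` is small then there is a
chain of subspaces which contain few elements of `S`.
-/

namespace Pool.Agent.Helper762SS

open Finset

variable {p : ℕ} [Fact p.Prime] {E : Type*} [AddCommGroup E] [Module (ZMod p) E]

lemma mem_exch (K : Submodule (ZMod p) E) {x s : E} (hs : s ∉ K)
    (h : s ∈ K ⊔ Submodule.span (ZMod p) {x}) : x ∈ K ⊔ Submodule.span (ZMod p) {s} := by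
  rw [Submodule.mem_sup] at h
  obtain ⟨k, hk, y, hy, rfl⟩ := h
  rw [Submodule.mem_span_singleton] at hy
  obtain ⟨a, rfl⟩ := hy
  have ha : a ≠ 0 := by
    rintro rfl
    rw [zero_smul, add_zero] at hs
    exact hs hk
  rw [Submodule.mem_sup]
  refine ⟨-(a⁻¹ • k), K.neg_mem (K.smul_mem _ hk), a⁻¹ • (k + a • x),
    Submodule.smul_mem _ _ (Submodule.mem_span_singleton_self _), ?_⟩
  rw [smul_add, smul_smul, inv_mul_cancel₀ ha, one_smul]
  abel

open Classical in
lemma card_new [Fintype E] (K : Submodule (ZMod p) E) (s : E) :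
    (univ.filter (fun x : E => x ∉ K ∧ s ∈ K ⊔ Submodule.span (ZMod p) {x} ∧ s ∉ K)).card
      ≤ (p - 1) * Fintype.card K := by
  have hp : 0 < p := (Fact.out : p.Prime).pos
  have hsub : (univ.filter (fun x : E => x ∉ K ∧ s ∈ K ⊔ Submodule.span (ZMod p) {x} ∧ s ∉ K)) ⊆
      (univ : Finset ((ZMod p)ˣ × K)).image (fun q => (q.2 : E) + (q.1 : ZMod p) • s) := by
    intro x hx
    rw [mem_filter] at hx
    obtain ⟨-, hxK, hs, hsK⟩ := hx
    have h := mem_exch K hsK hs
    rw [Submodule.mem_sup] at h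
    obtain ⟨k, hk, y, hy, rfl⟩ := h
    rw [Submodule.mem_span_singleton] at hy
    obtain ⟨a, rfl⟩ := hy
    have ha : a ≠ 0 := by
      rintro rfl
      rw [zero_smul, add_zero] at hxK
      exact hxK hk
    rw [mem_image]
    exact ⟨(Units.mk0 a ha, ⟨k, hk⟩), mem_univ _, by simp⟩
  refine (card_le_card hsub).trans (card_image_le.trans ?_)
  rw [card_univ, Fintype.card_prod, ZMod.card_units_eq_totient, Nat.totient_prime Fact.out]

open Classical in
/-- If every subspace `K ⊔ ⟨x⟩` with `x ∉ K` contains at least `r` elements of `S` outside `K` then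
`S` is large. -/
lemma count [Fintype E] (K : Submodule (ZMod p) E) (S : Finset E) (r : ℕ)
    (h : ∀ x ∉ K, r ≤ (S.filter (fun s => s ∉ K ∧ s ∈ K ⊔ Submodule.span (ZMod p) {x})).card) :
    (Fintype.card E - Fintype.card K) * r ≤ S.card * ((p - 1) * Fintype.card K) := by
  have hA : (univ.filter (fun x : E => x ∉ K)).card = Fintype.card E - Fintype.card K := by
    rw [filter_not, card_sdiff_of_subset (filter_subset _ _), card_univ]
    congr 1
    rw [← Fintype.card_subtype]
  rw [← hA]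
  have := Finset.card_mul_le_card_mul (s := univ.filter (fun x : E => x ∉ K))
    (t := S.filter (fun s => s ∉ K))
    (r := fun x s => s ∈ K ⊔ Submodule.span (ZMod p) {x}) (m := r) (n := (p - 1) * Fintype.card K)
    ?_ ?_
  · exact this.trans (Nat.mul_le_mul_right _ (card_le_card (filter_subset _ _)))
  · intro x hx
    rw [mem_filter] at hx
    refine (h x hx.2).trans (card_le_card ?_)
    intro s hs
    rw [mem_filter] at hs
    rw [mem_bipartiteAbove, mem_filter]
    exact ⟨⟨hs.1, hs.2.1⟩, hs.2.2⟩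
  · intro s hs
    rw [mem_filter] at hs
    refine le_trans (card_le_card ?_) (card_new K s)
    intro x hx
    rw [mem_bipartiteBelow, mem_filter] at hx
    rw [mem_filter]
    exact ⟨mem_univ _, hx.1.2, hx.2, hs.2⟩

open Classical in
lemma step [Fintype E] {n i : ℕ} (hE : Fintype.card E = p ^ n) (K : Submodule (ZMod p) E)
    (hK : Fintype.card K = p ^ i) (hi : i ≤ n) (S : Finset E) (r : ℕ)
    (h : (p - 1) * S.card < r * (p ^ (n - i) - 1)) :
    ∃ x ∉ K, (S.filter (fun s => s ∉ K ∧ s ∈ K ⊔ Submodule.span (ZMod p) {x})).card < r := by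
  by_contra hcon
  push Not at hcon
  have := count K S r hcon
  rw [hE, hK] at this
  have hp : 0 < p ^ i := pow_pos (Fact.out : p.Prime).pos _
  have e : p ^ n - p ^ i = p ^ i * (p ^ (n - i) - 1) := by
    rw [Nat.mul_sub, mul_one, ← pow_add, Nat.add_sub_cancel' hi]
  rw [e] at this
  have h2 : p ^ i * (r * (p ^ (n - i) - 1)) ≤ p ^ i * ((p - 1) * S.card) := by
    calc p ^ i * (r * (p ^ (n - i) - 1)) = p ^ i * (p ^ (n - i) - 1) * r := by ring
      _ ≤ S.card * ((p - 1) * p ^ i) := this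
      _ = _ := by ring
  exact absurd (Nat.le_of_mul_le_mul_left h2 hp) (not_le.mpr h)

/-- Extension of a linear map from `V` to `V × ZMod p`. -/
noncomputable def ext {V : Type*} [AddCommGroup V] [Module (ZMod p) V] (Φ : V →ₗ[ZMod p] E)
    (u : E) : V × ZMod p →ₗ[ZMod p] E :=
  Φ.coprod (LinearMap.toSpanSingleton (ZMod p) E u)

lemma ext_apply {V : Type*} [AddCommGroup V] [Module (ZMod p) V] (Φ : V →ₗ[ZMod p] E)
    (u : E) (v : V) (c : ZMod p) : ext Φ u (v, c) = Φ v + c • u := by
  simp [ext]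

lemma ext_inj {V : Type*} [AddCommGroup V] [Module (ZMod p) V] (Φ : V →ₗ[ZMod p] E)
    (hΦ : Function.Injective Φ) (u : E) (hu : u ∉ LinearMap.range Φ) :
    Function.Injective (ext Φ u) := by
  rw [← LinearMap.ker_eq_bot, LinearMap.ker_eq_bot']
  rintro ⟨v, c⟩ h
  rw [ext_apply] at h
  have hc : c = 0 := by
    by_contra hc
    apply hu
    refine ⟨-(c⁻¹ • v), ?_⟩
    rw [map_neg, map_smul, eq_neg_of_add_eq_zero_left h, smul_neg, smul_smul, inv_mul_cancel₀ hc,
      one_smul, neg_neg]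
  rw [hc, zero_smul, add_zero] at h
  rw [hc, hΦ (h.trans (map_zero Φ).symm)]
  rfl

open Classical in
/-- The extension step: the new layer contains fewer than `r` elements of `S`, and `(0, 1)` if it
contains any. -/
lemma extend [Fintype E] {n i : ℕ} (hE : Fintype.card E = p ^ n) {V : Type*} [AddCommGroup V]
    [Module (ZMod p) V] [Fintype V] (hV : Fintype.card V = p ^ i) (hi : i ≤ n)
    (Φ : V →ₗ[ZMod p] E) (hΦ : Function.Injective Φ) (S : Finset E) (r : ℕ)
    (h : (p - 1) * S.card < r * (p ^ (n - i) - 1)) :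
    ∃ u : E, Function.Injective (ext Φ u) ∧ ∃ R : Finset (V × ZMod p), R.card < r ∧
      (∀ q, q ∈ R ↔ q.2 ≠ 0 ∧ ext Φ u q ∈ S) ∧ (R.Nonempty → (0, 1) ∈ R) := by
  have hK : Fintype.card (LinearMap.range Φ) = p ^ i := by
    rw [← hV]
    exact (Fintype.card_congr (LinearEquiv.ofInjective Φ hΦ).toEquiv).symm
  obtain ⟨x, hx, hr⟩ := step hE (LinearMap.range Φ) (by convert hK) hi S r h
  -- choose `u` in the filter if possible
  obtain ⟨u, hu, hur, huS⟩ : ∃ u ∉ LinearMap.range Φ,
      (S.filter (fun s => s ∉ LinearMap.range Φ ∧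
        s ∈ LinearMap.range Φ ⊔ Submodule.span (ZMod p) {u})).card < r ∧
      ((∃ s ∈ S, s ∉ LinearMap.range Φ ∧
        s ∈ LinearMap.range Φ ⊔ Submodule.span (ZMod p) {u}) → u ∈ S) := by
    by_cases hex : ∃ s ∈ S, s ∉ LinearMap.range Φ ∧
        s ∈ LinearMap.range Φ ⊔ Submodule.span (ZMod p) {x}
    · obtain ⟨u, huS, hu, hux⟩ := hex
      refine ⟨u, hu, ?_, fun _ => huS⟩
      have : LinearMap.range Φ ⊔ Submodule.span (ZMod p) {u} ≤
          LinearMap.range Φ ⊔ Submodule.span (ZMod p) {x} := by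
        refine sup_le le_sup_left ?_
        rw [Submodule.span_singleton_le_iff_mem]
        exact hux
      refine lt_of_le_of_lt (card_le_card ?_) hr
      intro s hs
      rw [mem_filter] at hs ⊢
      exact ⟨hs.1, hs.2.1, this hs.2.2⟩
    · exact ⟨x, hx, hr, fun h => absurd h hex⟩
  have hlay : ∀ q : V × ZMod p, q.2 ≠ 0 → ext Φ u q ∉ LinearMap.range Φ ∧
      ext Φ u q ∈ LinearMap.range Φ ⊔ Submodule.span (ZMod p) {u} := by
    rintro ⟨v, c⟩ hc
    rw [ext_apply]
    refine ⟨fun hmem => ?_, ?_⟩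
    · apply hu
      have h1 : c • u ∈ LinearMap.range Φ := by
        have := (LinearMap.range Φ).sub_mem hmem ⟨v, rfl⟩
        rwa [add_sub_cancel_left] at this
      have := (LinearMap.range Φ).smul_mem c⁻¹ h1
      rwa [smul_smul, inv_mul_cancel₀ hc, one_smul] at this
    · exact Submodule.add_mem_sup ⟨v, rfl⟩
        (Submodule.smul_mem _ _ (Submodule.mem_span_singleton_self u))
  have hinj := ext_inj Φ hΦ u hu
  refine ⟨u, hinj, univ.filter (fun q : V × ZMod p => q.2 ≠ 0 ∧ ext Φ u q ∈ S), ?_,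
    fun q => by rw [mem_filter]; exact ⟨fun h => h.2, fun h => ⟨mem_univ _, h⟩⟩, ?_⟩
  · refine lt_of_le_of_lt ?_ hur
    rw [← card_image_of_injective _ hinj]
    apply card_le_card
    intro s hs
    rw [mem_image] at hs
    obtain ⟨q, hq, rfl⟩ := hs
    rw [mem_filter] at hq ⊢
    exact ⟨hq.2.2, hlay q hq.2.1⟩
  · rintro ⟨q, hq⟩
    rw [mem_filter] at hq
    rw [mem_filter, ext_apply, map_zero, zero_add, one_smul]
    exact ⟨mem_univ _, one_ne_zero, huS ⟨_, hq.2.2, hlay q hq.2.1⟩⟩

end Pool.Agent.Helper762SS
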