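import Pool.Agent.Helper762_SS.Lower

set_option autoImplicit false

/-!
# Small cases: `k = 4, 5, 6, 9, 11` for vector spaces over `ZMod 3`

A vector of `F_3^m`, `m ≤ 4`, is encoded by a natural number with the ternary digits of its entries.
-/

namespace Pool.Agent.Helper762SS

open Finset

/-- Digitwise addition modulo three. -/
def add3 (a b c : ℕ) : ℕ :=
  (a + b + c) % 3 + 3 * ((a / 3 + b / 3 + c / 3) % 3) + 9 * ((a / 9 + b / 9 + c / 9) % 3) +
  27 * ((a / 27 + b / 27 + c / 27) % 3)

/-- `q.1` lists `k` different numbers below `N`, and the digitwise sums of three of them are elements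
of the set with the mask `q.2`. -/
def good (N k : ℕ) (q : List ℕ × ℕ) : Bool :=
  (List.range k).all fun i => decide (q.1.getD i 0 < N) && (List.range k).all fun j =>
    (i == j) || ((q.1.getD i 0 != q.1.getD j 0) && (List.range k).all fun l =>
      (l == i) || (l == j) || q.2.testBit (add3 (q.1.getD i 0) (q.1.getD j 0) (q.1.getD l 0)))

lemma good_spec {N k : ℕ} {q : List ℕ × ℕ} (h : good N k q = true) :
    (∀ i < k, q.1.getD i 0 < N) ∧
    (∀ i < k, ∀ j < k, i ≠ j → q.1.getD i 0 ≠ q.1.getD j 0) ∧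
    (∀ i < k, ∀ j < k, ∀ l < k, i ≠ j → l ≠ i → l ≠ j →
      q.2.testBit (add3 (q.1.getD i 0) (q.1.getD j 0) (q.1.getD l 0)) = true) := by
  unfold good at h
  simp only [List.all_eq_true, List.mem_range, Bool.and_eq_true, decide_eq_true_eq,
    Bool.or_eq_true, beq_iff_eq, bne_iff_ne] at h
  refine ⟨fun i hi => (h i hi).1, fun i hi j hj hij => ?_, fun i hi j hj l hl hij hli hlj => ?_⟩
  · rcases (h i hi).2 j hj with h1 | h1
    · exact absurd h1 hij
    · exact h1.1
  · rcases (h i hi).2 j hj with h1 | h1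
    · exact absurd h1 hij
    · rcases h1.2 l hl with (h2 | h2) | h2
      · exact absurd h2 hli
      · exact absurd h2 hlj
      · exact h2

/-- An encoding of the elements of `V` by the numbers below `N`. -/
structure Code (V : Type) [AddCommGroup V] (N : ℕ) where
  enc : V → ℕ
  dec : ℕ → V
  sum : ∀ a b c, a < N → b < N → c < N → enc (dec a + dec b + dec c) = add3 a b c
  inv : ∀ a < N, enc (dec a) = a
  lt : ∀ v, enc v < N

lemma from_good {V : Type} [AddCommGroup V] [Module (ZMod 3) V] {N k : ℕ} (C : Code V N)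
    {E : Type*} [AddCommGroup E] [Module (ZMod 3) E] [DecidableEq E] (Ψ : V →ₗ[ZMod 3] E)
    (hΨ : Function.Injective Ψ) (S : Finset E) (q : List ℕ × ℕ) (hq : good N k q = true)
    (hbad : ∀ v, Ψ v ∈ S → q.2.testBit (C.enc v) = false) :
    ∃ X : Finset E, X.card = k ∧ ∀ Y ⊆ X, Y.card = 3 → ∑ y ∈ Y, y ∉ S := by
  obtain ⟨g1, g2, g3⟩ := good_spec hq
  have : Fact (Nat.Prime 3) := ⟨Nat.prime_three⟩
  have := transfer Ψ hΨ S 3 (fun i : Fin k => C.dec (q.1.getD i 0)) ?_ ?_
  · rwa [Fintype.card_fin] at this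
  · intro i j hij
    by_contra hne
    have h1 := congrArg C.enc hij
    simp only at h1
    rw [C.inv _ (g1 i i.2), C.inv _ (g1 j j.2)] at h1
    exact g2 i i.2 j j.2 (fun h => hne (Fin.ext h)) h1
  · intro J hJ hmem
    obtain ⟨a, b, c, hab, hac, hbc, rfl⟩ := Finset.card_eq_three.mp hJ
    rw [sum_insert (by simp [hab, hac]), sum_insert (by simp [hbc]), sum_singleton,
      ← add_assoc] at hmem
    have h1 := hbad _ hmem
    rw [C.sum _ _ _ (g1 a a.2) (g1 b b.2) (g1 c c.2)] at h1
    rw [g3 a a.2 b b.2 c c.2 (fun h => hab (Fin.ext h)) (fun h => hac (Fin.ext h.symm))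
      (fun h => hbc (Fin.ext h.symm))] at h1
    exact absurd h1 (by decide)

abbrev V1 := PUnit.{1} × ZMod 3
abbrev V2 := V1 × ZMod 3
abbrev V3 := V2 × ZMod 3
abbrev V4 := V3 × ZMod 3

def enc2 (v : V2) : ℕ := v.1.2.val + 3 * v.2.val
def enc3 (v : V3) : ℕ := enc2 v.1 + 9 * v.2.val
def enc4 (v : V4) : ℕ := enc3 v.1 + 27 * v.2.val

def dec2 (n : ℕ) : V2 := ((PUnit.unit, (n : ZMod 3)), ((n / 3 : ℕ) : ZMod 3))
def dec3 (n : ℕ) : V3 := (dec2 n, ((n / 9 : ℕ) : ZMod 3))
def dec4 (n : ℕ) : V4 := (dec3 n, ((n / 27 : ℕ) : ZMod 3))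

lemma val3 (a b c : ℕ) : ((a : ZMod 3) + (b : ZMod 3) + (c : ZMod 3)).val = (a + b + c) % 3 := by
  rw [← Nat.cast_add, ← Nat.cast_add, ZMod.val_natCast]

lemma val_lt3 (x : ZMod 3) : x.val < 3 := ZMod.val_lt x

lemma enc2_dec2 (a b c : ℕ) : enc2 (dec2 a + dec2 b + dec2 c) =
    (a + b + c) % 3 + 3 * ((a / 3 + b / 3 + c / 3) % 3) := by
  simp only [enc2, dec2, Prod.fst_add, Prod.snd_add, val3]

lemma enc3_dec3 (a b c : ℕ) : enc3 (dec3 a + dec3 b + dec3 c) =
    (a + b + c) % 3 + 3 * ((a / 3 + b / 3 + c / 3) % 3) + 9 * ((a / 9 + b / 9 + c / 9) % 3) := by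
  have := enc2_dec2 a b c
  simp only [enc3, dec3, Prod.fst_add, Prod.snd_add, val3, this]

lemma enc4_dec4 (a b c : ℕ) : enc4 (dec4 a + dec4 b + dec4 c) =
    (a + b + c) % 3 + 3 * ((a / 3 + b / 3 + c / 3) % 3) + 9 * ((a / 9 + b / 9 + c / 9) % 3) +
    27 * ((a / 27 + b / 27 + c / 27) % 3) := by
  have := enc3_dec3 a b c
  simp only [enc4, dec4, Prod.fst_add, Prod.snd_add, val3, this]

def code2 : Code V2 9 where
  enc := enc2
  dec := dec2
  sum := by
    intro a b c ha hb hc
    rw [enc2_dec2]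
    unfold add3
    rw [Nat.div_eq_of_lt (show a < 9 from ha), Nat.div_eq_of_lt (show b < 9 from hb),
      Nat.div_eq_of_lt (show c < 9 from hc), Nat.div_eq_of_lt (show a < 27 by linarith),
      Nat.div_eq_of_lt (show b < 27 by linarith), Nat.div_eq_of_lt (show c < 27 by linarith)]
    simp
  inv := by
    intro a ha
    simp only [enc2, dec2, ZMod.val_natCast]
    revert a
    decide
  lt := by
    intro v
    have h1 := val_lt3 v.1.2
    have h2 := val_lt3 v.2
    simp only [enc2]
    omega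

def code3 : Code V3 27 where
  enc := enc3
  dec := dec3
  sum := by
    intro a b c ha hb hc
    rw [enc3_dec3]
    unfold add3
    rw [Nat.div_eq_of_lt (show a < 27 from ha), Nat.div_eq_of_lt (show b < 27 from hb),
      Nat.div_eq_of_lt (show c < 27 from hc)]
    simp
  inv := by
    intro a ha
    simp only [enc3, enc2, dec3, dec2, ZMod.val_natCast]
    revert a
    decide
  lt := by
    intro v
    have h1 := code2.lt v.1
    have h2 := val_lt3 v.2
    simp only [code2] at h1
    simp only [enc3]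
    omega

def code4 : Code V4 81 where
  enc := enc4
  dec := dec4
  sum := by
    intro a b c ha hb hc
    rw [enc4_dec4]
    rfl
  inv := by
    intro a ha
    simp only [enc4, enc3, enc2, dec4, dec3, dec2, ZMod.val_natCast]
    revert a
    decide +kernel
  lt := by
    intro v
    have h1 := code3.lt v.1
    have h2 := val_lt3 v.2
    simp only [code3] at h1
    simp only [enc4]
    omega

lemma val_pos3 {x : ZMod 3} (h : x ≠ 0) : 0 < x.val := by
  rw [Nat.pos_iff_ne_zero]
  intro h0
  exact h ((ZMod.val_eq_zero x).mp h0)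

lemma top2 {v : V2} (h : v.2 ≠ 0) : 3 ≤ enc2 v := by
  have := val_pos3 h
  simp only [enc2]; omega

lemma top3 {v : V3} (h : v.2 ≠ 0) : 9 ≤ enc3 v := by
  have := val_pos3 h
  simp only [enc3]; omega

lemma top4 {v : V4} (h : v.2 ≠ 0) : 27 ≤ enc4 v := by
  have := val_pos3 h
  simp only [enc4]; omega

lemma peel {α : Type*} [DecidableEq α] (R : Finset α) (P : α → Prop) (d : α) (hd : P d)
    (hR : ∀ q ∈ R, P q) (j : ℕ) (h : R.card ≤ j + 1) : ∃ b, P b ∧ (R.erase b).card ≤ j := by
  rcases R.eq_empty_or_nonempty with rfl | ⟨b, hb⟩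
  · exact ⟨d, hd, by simp⟩
  · exact ⟨b, hR b hb, by rw [card_erase_of_mem hb]; omega⟩

/-- The covering property of a library: every `j`-tuple of numbers in `[H, N)` is avoided. -/
def cov1 (H N : ℕ) (L : List (List ℕ × ℕ)) : Bool :=
  (List.range N).all fun b => decide (b < H) || L.any fun q => !q.2.testBit b

def cov2 (H N : ℕ) (L : List (List ℕ × ℕ)) : Bool :=
  (List.range N).all fun b => decide (b < H) || (List.range N).all fun c => decide (c < H) ||
    L.any fun q => !q.2.testBit b && !q.2.testBit c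

def cov3 (H N : ℕ) (L : List (List ℕ × ℕ)) : Bool :=
  (List.range N).all fun b => decide (b < H) || (List.range N).all fun c => decide (c < H) ||
    (List.range N).all fun d => decide (d < H) ||
    L.any fun q => !q.2.testBit b && !q.2.testBit c && !q.2.testBit d

lemma cov1_spec {H N : ℕ} {L : List (List ℕ × ℕ)} (h : cov1 H N L = true) (b : ℕ) (hb : H ≤ b)
    (hb' : b < N) : ∃ q ∈ L, q.2.testBit b = false := by
  unfold cov1 at h
  simp only [List.all_eq_true, List.mem_range, Bool.or_eq_true, decide_eq_true_eq,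
    List.any_eq_true, Bool.not_eq_true'] at h
  rcases h b hb' with h1 | h1
  · omega
  · exact h1

lemma cov2_spec {H N : ℕ} {L : List (List ℕ × ℕ)} (h : cov2 H N L = true) (b c : ℕ) (hb : H ≤ b)
    (hb' : b < N) (hc : H ≤ c) (hc' : c < N) :
    ∃ q ∈ L, q.2.testBit b = false ∧ q.2.testBit c = false := by
  unfold cov2 at h
  simp only [List.all_eq_true, List.mem_range, Bool.or_eq_true, decide_eq_true_eq,
    List.any_eq_true, Bool.not_eq_true', Bool.and_eq_true] at h
  rcases h b hb' with h1 | h1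
  · omega
  · rcases h1 c hc' with h2 | h2
    · omega
    · exact h2

lemma cov3_spec {H N : ℕ} {L : List (List ℕ × ℕ)} (h : cov3 H N L = true) (b c d : ℕ)
    (hb : H ≤ b) (hb' : b < N) (hc : H ≤ c) (hc' : c < N) (hd : H ≤ d) (hd' : d < N) :
    ∃ q ∈ L, q.2.testBit b = false ∧ q.2.testBit c = false ∧ q.2.testBit d = false := by
  unfold cov3 at h
  simp only [List.all_eq_true, List.mem_range, Bool.or_eq_true, decide_eq_true_eq,
    List.any_eq_true, Bool.not_eq_true', Bool.and_eq_true] at h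
  rcases h b hb' with h1 | h1
  · omega
  · rcases h1 c hc' with h2 | h2
    · omega
    · rcases h2 d hd' with h3 | h3
      · omega
      · obtain ⟨q, hq, ⟨e1, e2⟩, e3⟩ := h3
        exact ⟨q, hq, e1, e2, e3⟩


end Pool.Agent.Helper762SS
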