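import Pool.Agent.Helper762_SS.Codes

set_option autoImplicit false

/-!
# Extending a chain of subspaces by one layer, for `p = 3`
-/

namespace Pool.Agent.Helper762SS

open Finset

lemma layer {E : Type*} [AddCommGroup E] [Module (ZMod 3) E] [Fintype E] {V : Type}
    [AddCommGroup V] [Module (ZMod 3) V] [Fintype V] {n : ℕ}
    (hE : Fintype.card E = 3 ^ n) (i : ℕ) (hV : Fintype.card V = 3 ^ i)
    (Φ : V →ₗ[ZMod 3] E) (hΦ : Function.Injective Φ) (T : Finset E) (r : ℕ)
    (h : 2 * T.card < r * (3 ^ (n - i) - 1)) (P : V → Prop) (hP : ∀ v, Φ v ∈ T → P v) :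
    ∃ Ψ : V × ZMod 3 →ₗ[ZMod 3] E, Function.Injective Ψ ∧ ∃ b : ℕ → V × ZMod 3,
      (∀ j, (b j).2 ≠ 0) ∧ ∀ w, Ψ w ∈ T →
        (w.2 = 0 ∧ P w.1) ∨ (2 ≤ r ∧ w = (0, 1)) ∨ ∃ j < r - 2, w = b j := by
  classical
  have : Fact (Nat.Prime 3) := ⟨Nat.prime_three⟩
  have hi : i ≤ n := by
    by_contra hcon
    have : n - i = 0 := by omega
    rw [this] at h
    simp at h
  obtain ⟨u, hinj, R, hcard, hR, h01⟩ := extend (p := 3) hE hV hi Φ hΦ T r (by simpa using h)
  have hR' : (R.erase (0, 1)).card ≤ r - 2 := by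
    rcases R.eq_empty_or_nonempty with hemp | hne
    · rw [hemp]; simp
    · rw [card_erase_of_mem (h01 hne)]
      omega
  refine ⟨ext Φ u, hinj, fun j => (R.erase (0, 1)).toList.getD j (0, 1), ?_, ?_⟩
  · intro j
    by_cases hj : j < (R.erase (0, 1)).toList.length
    · have hmem : (R.erase (0, 1)).toList.getD j (0, 1) ∈ (R.erase (0, 1)).toList := by
        rw [List.getD_eq_getElem _ _ hj]
        exact List.getElem_mem hj
      rw [mem_toList, mem_erase] at hmem
      exact ((hR _).mp hmem.2).1
    · have hd : (R.erase (0, 1)).toList.getD j (0, 1) = (0, 1) :=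
        List.getD_eq_default _ _ (by omega)
      change ((R.erase (0, 1)).toList.getD j (0, 1)).2 ≠ 0
      rw [hd]
      exact one_ne_zero
  · intro w hw
    by_cases hw0 : w.2 = 0
    · left
      refine ⟨hw0, hP _ ?_⟩
      have : ext Φ u w = Φ w.1 := by
        obtain ⟨v, c⟩ := w
        simp only at hw0
        rw [hw0, ext_apply, zero_smul, add_zero]
      rwa [this] at hw
    · right
      have hmem : w ∈ R := (hR w).mpr ⟨hw0, hw⟩
      by_cases hw1 : w = (0, 1)
      · left
        refine ⟨?_, hw1⟩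
        by_contra hcon
        have h2 : R.card < 1 ∨ r = 1 := by omega
        rcases h2 with h2 | h2
        · have := card_pos.mpr ⟨w, hmem⟩
          omega
        · have := card_pos.mpr ⟨w, hmem⟩
          omega
      · right
        have hm : w ∈ (R.erase (0, 1)).toList := by
          rw [mem_toList, mem_erase]
          exact ⟨hw1, hmem⟩
        obtain ⟨j, hj, hjw⟩ := List.mem_iff_getElem.mp hm
        refine ⟨j, ?_, ?_⟩
        · rw [length_toList] at hj
          omega
        · change w = (R.erase (0, 1)).toList.getD j (0, 1)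
          rw [List.getD_eq_getElem _ _ hj, hjw]

end Pool.Agent.Helper762SS
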