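import Pool.Agent.Helper762_SS.Chain

set_option autoImplicit false

/-!
# The general lower bound: sequences without zero-sum subsequences give points without sums in `S`
-/

namespace Pool.Agent.Helper762SS

open Finset

variable {p : ℕ} [Fact p.Prime] {E : Type*} [AddCommGroup E] [Module (ZMod p) E]

lemma avoid [Fintype E] [DecidableEq E] {n : ℕ} (hE : Fintype.card E = p ^ n) (S : Finset E)
    (h0 : (0 : E) ∉ S) (m : ℕ) (hm : m ≤ n)
    (h : ∀ i < m, (p - 1) * S.card < 1 * (p ^ (n - i) - 1)) :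
    ∃ Φ : (Fin m → ZMod p) →ₗ[ZMod p] E, Function.Injective Φ ∧ ∀ v, Φ v ∉ S := by
  induction m with
  | zero =>
    refine ⟨0, fun a b _ => Subsingleton.elim _ _, fun v => ?_⟩
    simpa using h0
  | succ m ih =>
    obtain ⟨Φ, hΦ, hav⟩ := ih (by omega) (fun i hi => h i (by omega))
    have hV : Fintype.card (Fin m → ZMod p) = p ^ m := by
      rw [Fintype.card_fun, ZMod.card, Fintype.card_fin]
    obtain ⟨u, hinj, R, hcard, hR, -⟩ := extend hE hV (by omega) Φ hΦ S 1 (h m (by omega))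
    have e : (Fin (m + 1) → ZMod p) ≃ₗ[ZMod p] ((Fin m → ZMod p) × ZMod p) := by
      apply LinearEquiv.ofFinrankEq
      rw [Module.finrank_prod, Module.finrank_fin_fun, Module.finrank_fin_fun,
        Module.finrank_self]
    refine ⟨(ext Φ u).comp e.toLinearMap, hinj.comp e.injective, fun v => ?_⟩
    rw [LinearMap.comp_apply]
    obtain ⟨w, c, hq⟩ : ∃ w c, e v = (w, c) := ⟨(e v).1, (e v).2, rfl⟩
    by_cases hc : c = 0
    · change ext Φ u (e v) ∉ S
      rw [hq, hc, ext_apply, zero_smul, add_zero]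
      exact hav w
    · intro hmem
      change ext Φ u (e v) ∈ S at hmem
      rw [hq] at hmem
      rw [Nat.lt_one_iff, card_eq_zero] at hcard
      have : (w, c) ∈ R := (hR _).mpr ⟨hc, hmem⟩
      rw [hcard] at this
      exact absurd this (notMem_empty _)

lemma lower_aux [Fintype E] [DecidableEq E] {A : Type*} [AddCommGroup A] [Module (ZMod p) A]
    [Fintype A] {n d D : ℕ} (hE : Fintype.card E = p ^ n) (hA : Module.finrank (ZMod p) A = d)
    (S : Finset E) (h0 : (0 : E) ∉ S)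
    (hS : (p - 1) * S.card < 2 * (p ^ (n - (d + D)) - 1)) :
    ∃ Ψ : (A × (Fin D → ZMod p)) × ZMod p →ₗ[ZMod p] E, Function.Injective Ψ ∧
      ∀ a w c, a ≠ 0 → Ψ ((a, w), c) ∉ S := by
  have hp2 : 2 ≤ p := (Fact.out : p.Prime).two_le
  have hlt : d + D < n := by
    by_contra hcon
    have : n - (d + D) = 0 := by omega
    rw [this] at hS
    simp at hS
  obtain ⟨Φ, hΦ, hav⟩ := avoid hE S h0 (d + D) hlt.le (by
    intro i hi
    have h1 : p ^ (n - (d + D) + 1) ≤ p ^ (n - i) := Nat.pow_le_pow_right (by omega) (by omega)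
    have h2 : 2 * p ^ (n - (d + D)) ≤ p ^ (n - (d + D) + 1) := by
      rw [pow_succ, mul_comm]
      exact Nat.mul_le_mul_left _ hp2
    omega)
  have hV : Fintype.card (Fin (d + D) → ZMod p) = p ^ (d + D) := by
    rw [Fintype.card_fun, ZMod.card, Fintype.card_fin]
  obtain ⟨u, hinj, R, hcard, hR, hu⟩ := extend hE hV hlt.le Φ hΦ S 2 hS
  have e : (A × (Fin D → ZMod p)) ≃ₗ[ZMod p] (Fin (d + D) → ZMod p) := by
    haveI : Module.Finite (ZMod p) A := Module.Finite.of_finite
    apply LinearEquiv.ofFinrankEq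
    rw [Module.finrank_prod, Module.finrank_fin_fun, Module.finrank_fin_fun, hA]
  refine ⟨(ext Φ u).comp (LinearMap.prodMap e.toLinearMap LinearMap.id), ?_, ?_⟩
  · apply hinj.comp
    rintro ⟨x, c⟩ ⟨x', c'⟩ h
    simp only [LinearMap.prodMap_apply, LinearEquiv.coe_coe, LinearMap.id_coe, id_eq,
      Prod.mk.injEq] at h
    rw [e.injective h.1, h.2]
  · intro a w c ha hmem
    change ext Φ u (e (a, w), c) ∈ S at hmem
    by_cases hc : c = 0
    · rw [hc, ext_apply, zero_smul, add_zero] at hmem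
      exact hav _ hmem
    · have h2 : (e (a, w), c) ∈ R := (hR _).mpr ⟨hc, hmem⟩
      have h3 := Finset.card_le_one.mp (Nat.lt_succ_iff.mp hcard) _ (hu ⟨_, h2⟩) _ h2
      have h4 : e (a, w) = 0 := (Prod.mk.inj h3).1.symm
      have h5 : (a, w) = 0 := by
        rw [← e.map_zero] at h4
        exact e.injective h4
      exact ha (Prod.mk.inj h5).1

/-- The transfer principle: a finite set of size `k` in the domain of an injective linear map. -/
lemma transfer [DecidableEq E] {V : Type*} [AddCommGroup V] [Module (ZMod p) V]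
    (Ψ : V →ₗ[ZMod p] E) (hΨ : Function.Injective Ψ) (S : Finset E) (t : ℕ) {ι : Type*} [Fintype ι]
    (x : ι → V) (hx : Function.Injective x)
    (h : ∀ J : Finset ι, J.card = t → Ψ (∑ j ∈ J, x j) ∉ S) :
    ∃ X : Finset E, X.card = Fintype.card ι ∧ ∀ Y ⊆ X, Y.card = t → ∑ y ∈ Y, y ∉ S := by
  classical
  have hinj : Function.Injective (fun i => Ψ (x i)) := hΨ.comp hx
  refine ⟨univ.image (fun i => Ψ (x i)), ?_, ?_⟩
  · rw [card_image_of_injective _ hinj, card_univ]
  · intro Y hY hc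
    set J : Finset ι := univ.filter (fun i => Ψ (x i) ∈ Y) with hJ
    have hYJ : Y = J.image (fun i => Ψ (x i)) := by
      ext y
      rw [mem_image]
      constructor
      · intro hy
        obtain ⟨i, -, rfl⟩ := mem_image.mp (hY hy)
        exact ⟨i, by rw [hJ, mem_filter]; exact ⟨mem_univ _, hy⟩, rfl⟩
      · rintro ⟨i, hi, rfl⟩
        rw [hJ, mem_filter] at hi
        exact hi.2
    have hJc : J.card = t := by
      rw [← hc, hYJ, card_image_of_injective _ hinj]
    rw [hYJ, sum_image (fun a _ b _ hab => hinj hab), ← map_sum]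
    exact h J hJc

/-- The lower bound. -/
theorem lower [Fintype E] [DecidableEq E] {A : Type*} [AddCommGroup A] [Module (ZMod p) A]
    [Fintype A] [DecidableEq A] {n d D : ℕ} (hE : Fintype.card E = p ^ n)
    (hA : Module.finrank (ZMod p) A = d) {ι : Type*} [Fintype ι] (f : ι → A) (t : ℕ)
    (hf : ∀ J : Finset ι, J.card = t → ∑ j ∈ J, f j ≠ 0)
    (hm : ∀ a, (univ.filter (fun i => f i = a)).card ≤ p ^ (D + 1))
    (S : Finset E) (hS : (p - 1) * (S.erase 0).card < 2 * (p ^ (n - (d + D)) - 1)) :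
    ∃ X : Finset E, X.card = Fintype.card ι ∧ ∀ Y ⊆ X, Y.card = t → ∑ y ∈ Y, y ∉ S := by
  classical
  obtain ⟨Ψ, hΨ, hav⟩ := lower_aux hE hA (S.erase 0) (notMem_erase 0 S) hS
  have hg : ∀ a : A, Nonempty ({i // f i = a} ↪ (Fin D → ZMod p) × ZMod p) := by
    intro a
    rw [Function.Embedding.nonempty_iff_card_le, Fintype.card_prod, Fintype.card_fun, ZMod.card,
      Fintype.card_fin, ← pow_succ, Fintype.card_subtype]
    exact hm a
  have g : ∀ a : A, {i // f i = a} ↪ (Fin D → ZMod p) × ZMod p := fun a => Classical.choice (hg a)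
  refine transfer Ψ hΨ S t (fun i => ((f i, (g (f i) ⟨i, rfl⟩).1), (g (f i) ⟨i, rfl⟩).2)) ?_ ?_
  · intro i j hij
    simp only [Prod.mk.injEq] at hij
    obtain ⟨⟨h1, h2⟩, h3⟩ := hij
    have key : ∀ (a : A) (ha : f i = a) (hb : f j = a),
        g a ⟨i, ha⟩ = g a ⟨j, hb⟩ → i = j := by
      intro a ha hb hab
      exact congrArg Subtype.val ((g a).injective hab)
    have e1 : ∀ (a : A) (ha : f i = a), g (f i) ⟨i, rfl⟩ = g a ⟨i, ha⟩ := by
      rintro a rfl; rfl
    have e2 : ∀ (a : A) (ha : f j = a), g (f j) ⟨j, rfl⟩ = g a ⟨j, ha⟩ := by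
      rintro a rfl; rfl
    refine key (f j) h1 rfl ?_
    rw [← e1 (f j) h1]
    exact Prod.ext h2 h3
  · intro J hJ hmem
    have hne := hf J hJ
    have hs : (∑ j ∈ J, (((f j, (g (f j) ⟨j, rfl⟩).1), (g (f j) ⟨j, rfl⟩).2) :
        (A × (Fin D → ZMod p)) × ZMod p)) =
        ((∑ j ∈ J, f j, ∑ j ∈ J, (g (f j) ⟨j, rfl⟩).1), ∑ j ∈ J, (g (f j) ⟨j, rfl⟩).2) := by
      ext
      · simp [Prod.fst_sum]
      · simp [Prod.fst_sum, Prod.snd_sum]
      · simp [Prod.snd_sum]
    rw [hs] at hmem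
    apply hav _ _ _ hne
    rw [mem_erase]
    refine ⟨fun h => ?_, hmem⟩
    rw [← map_zero Ψ] at h
    have := hΨ h
    exact hne (Prod.mk.inj (Prod.mk.inj this).1).1

end Pool.Agent.Helper762SS
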