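import Mathlib

set_option autoImplicit false

/-!
# The number of triples with a given sum in a vector space over `ZMod 3`
-/

namespace Pool.Agent.Helper762SS

open Finset

lemma three_smul_zero {E : Type*} [AddCommGroup E] [Module (ZMod 3) E] (x : E) :
    x + x + x = 0 := by
  have h : (3 : ZMod 3) = 0 := by decide
  have h2 : (3 : ZMod 3) • x = x + x + x := by
    rw [show (3 : ZMod 3) = 1 + 1 + 1 by decide, add_smul, add_smul, one_smul]
  rw [← h2, h, zero_smul]

lemma triples {E : Type*} [AddCommGroup E] [Module (ZMod 3) E] [Fintype E] [DecidableEq E]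
    (s : E) :
    Fintype.card E * (Fintype.card E - 3) ≤
      6 * (((univ : Finset E).powersetCard 3).filter (fun Y => ∑ y ∈ Y, y = s)).card := by
  classical
  set P : Finset (E × E) := univ.filter (fun q => q.2 ∉ ({q.1, q.1 + s, q.1 - s} : Finset E))
    with hP
  set F := ((univ : Finset E).powersetCard 3).filter (fun Y => ∑ y ∈ Y, y = s) with hF
  have hPc : Fintype.card E * (Fintype.card E - 3) ≤ P.card := by
    have h1 : P.card = ∑ x : E, (univ.filter
        (fun y : E => y ∉ ({x, x + s, x - s} : Finset E))).card := by
      rw [hP, card_filter, ← univ_product_univ, sum_product]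
      refine sum_congr rfl fun x _ => ?_
      rw [card_filter]
    rw [h1]
    have h2 : ∀ x ∈ (univ : Finset E), Fintype.card E - 3 ≤ (univ.filter
        (fun y : E => y ∉ ({x, x + s, x - s} : Finset E))).card := by
      intro x _
      have h3 : (univ.filter (fun y : E => y ∉ ({x, x + s, x - s} : Finset E))) =
          ({x, x + s, x - s} : Finset E)ᶜ := by
        ext y; rw [mem_filter, mem_compl]; simp
      rw [h3, card_compl]
      have : ({x, x + s, x - s} : Finset E).card ≤ 3 := card_le_three
      omega
    calc Fintype.card E * (Fintype.card E - 3) = ∑ _x : E, (Fintype.card E - 3) := by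
          rw [sum_const, card_univ, smul_eq_mul]
      _ ≤ _ := sum_le_sum h2
  have hne : ∀ q ∈ P, q.1 ≠ q.2 ∧ q.1 ≠ s - q.1 - q.2 ∧ q.2 ≠ s - q.1 - q.2 := by
    rintro ⟨x, y⟩ hq
    rw [hP, mem_filter] at hq
    have hq2 := hq.2
    simp only [mem_insert, mem_singleton, not_or] at hq2
    obtain ⟨h1, h2, h3⟩ := hq2
    refine ⟨fun h => h1 h.symm, fun h => h2 ?_, fun h => h3 ?_⟩
    · -- x = s - x - y
      have h4 : y = s - x - x := by
        have : x = s - x - y := h
        calc y = s - x - (s - x - y) := by abel
          _ = s - x - x := by rw [← this]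
      have h5 := three_smul_zero x
      calc y = s - x - x := h4
        _ = x + s - (x + x + x) := by abel
        _ = x + s := by rw [h5, sub_zero]
    · have h4 : x = s - y - y := by
        have : y = s - x - y := h
        calc x = s - (s - x - y) - y := by abel
          _ = s - y - y := by rw [← this]
      have h5 := three_smul_zero y
      calc y = (s - y - y) - s + (y + y + y) := by abel
        _ = (s - y - y) - s := by rw [h5, add_zero]
        _ = x - s := by rw [← h4]
  have himg : P.image (fun q => ({q.1, q.2, s - q.1 - q.2} : Finset E)) ⊆ F := by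
    intro Y hY
    rw [mem_image] at hY
    obtain ⟨q, hq, rfl⟩ := hY
    obtain ⟨h1, h2, h3⟩ := hne q hq
    rw [hF, mem_filter, mem_powersetCard]
    refine ⟨⟨subset_univ _, card_eq_three.mpr ⟨_, _, _, h1, h2, h3, rfl⟩⟩, ?_⟩
    rw [sum_insert (by simp [h1, h2]), sum_insert (by simpa using h3), sum_singleton]
    abel
  have hfib : ∀ Y ∈ P.image (fun q => ({q.1, q.2, s - q.1 - q.2} : Finset E)),
      (P.filter (fun q => ({q.1, q.2, s - q.1 - q.2} : Finset E) = Y)).card ≤ 6 := by
    intro Y hY
    have hYc : Y.card = 3 := by
      have := himg hY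
      rw [hF, mem_filter, mem_powersetCard] at this
      exact this.1.2
    have hsub : P.filter (fun q => ({q.1, q.2, s - q.1 - q.2} : Finset E) = Y) ⊆ Y.offDiag := by
      intro q hq
      rw [mem_filter] at hq
      obtain ⟨hq1, hq2⟩ := hq
      rw [mem_offDiag, ← hq2]
      exact ⟨by simp, by simp, (hne q hq1).1⟩
    calc _ ≤ Y.offDiag.card := card_le_card hsub
      _ = 6 := by rw [offDiag_card, hYc]
  calc Fintype.card E * (Fintype.card E - 3) ≤ P.card := hPc
    _ ≤ 6 * (P.image (fun q => ({q.1, q.2, s - q.1 - q.2} : Finset E))).card :=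
        card_le_mul_card_image P 6 hfib
    _ ≤ 6 * F.card := Nat.mul_le_mul_left _ (card_le_card himg)

end Pool.Agent.Helper762SS
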