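import Mathlib
import Pool.Agent.Helper762_SS.Cases
import Pool.Agent.Helper762_SS.Caps
import Pool.Agent.Helper762_SS.Triples

set_option autoImplicit false

/-!
# Turán systems determined by the sums of the points in `F_p^n`

The vertex set is `F_p^n`, and the family `sumSystem t S` consists of the `t`-subsets whose sum lies
in `S`.
-/

namespace Pool.Agent.Helper762SS.SumSystems

open Finset

/-- The family `F` is `k`-covering: every `k`-element set of vertices contains a member of `F`. -/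
def IsCovering {E : Type*} (k : ℕ) (F : Finset (Finset E)) : Prop :=
  ∀ X : Finset E, X.card = k → ∃ Y ∈ F, Y ⊆ X

/-- The `t`-element sets whose sum lies in `S`. -/
def sumSystem {E : Type*} [AddCommGroup E] [Fintype E] [DecidableEq E] (t : ℕ) (S : Finset E) :
    Finset (Finset E) :=
  ((univ : Finset E).powersetCard t).filter (fun Y => ∑ y ∈ Y, y ∈ S)

/-- Every sequence of `k` vectors of `F_p^d` has `t` terms (at different places) with sum zero. -/
def ZeroSum (p d t k : ℕ) : Prop :=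
  ∀ f : Fin k → (Fin d → ZMod p), ∃ J : Finset (Fin k), J.card = t ∧ ∑ j ∈ J, f j = 0

section general

variable {E : Type*} [AddCommGroup E] [Fintype E] [DecidableEq E]

lemma not_covering {t k K : ℕ} (hk : k ≤ K) {S : Finset E}
    (h : ∃ X : Finset E, X.card = K ∧ ∀ Y ⊆ X, Y.card = t → ∑ y ∈ Y, y ∉ S) :
    ¬ IsCovering k (sumSystem t S) := by
  intro hc
  obtain ⟨X, hX, hXS⟩ := h
  obtain ⟨X', hX', hc'⟩ := exists_subset_card_eq (hk.trans hX.ge)
  obtain ⟨Y, hY, hYX⟩ := hc X' hc'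
  rw [sumSystem, mem_filter, mem_powersetCard] at hY
  exact hXS Y (hYX.trans hX') hY.1.2 hY.2

end general

section lower

variable {p : ℕ} [Fact p.Prime]

lemma card_E (n : ℕ) : Fintype.card (Fin n → ZMod p) = p ^ n := by
  rw [Fintype.card_fun, ZMod.card, Fintype.card_fin]

lemma lower_bound {n d D t k : ℕ} (f : Fin k → (Fin d → ZMod p))
    (hf : ∀ J : Finset (Fin k), J.card = t → ∑ j ∈ J, f j ≠ 0)
    (hm : ∀ a, (univ.filter (fun i => f i = a)).card ≤ p ^ (D + 1))
    (S : Finset (Fin n → ZMod p)) (hS : IsCovering k (sumSystem t S)) :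
    2 * (p ^ (n - (d + D)) - 1) ≤ (p - 1) * (S.erase 0).card := by
  by_contra hcon
  push Not at hcon
  have := Helper762SS.lower (p := p) (d := d) (D := D) (card_E n) (A := Fin d → ZMod p)
    (Module.finrank_fin_fun (ZMod p)) f t hf hm S hcon
  rw [Fintype.card_fin] at this
  exact not_covering le_rfl this hS

lemma mult_le {d k : ℕ} (f : Fin k → (Fin d → ZMod p))
    (hf : ∀ J : Finset (Fin k), J.card = p → ∑ j ∈ J, f j ≠ 0) (a : Fin d → ZMod p) :
    (univ.filter (fun i => f i = a)).card ≤ p ^ (0 + 1) := by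
  by_contra hcon
  push Not at hcon
  rw [zero_add, pow_one] at hcon
  obtain ⟨J, hJ, hJc⟩ := exists_subset_card_eq hcon.le
  refine hf J hJc ?_
  have h1 : ∑ j ∈ J, f j = ∑ j ∈ J, a := by
    refine sum_congr rfl fun j hj => ?_
    have := hJ hj
    rw [mem_filter] at this
    exact this.2
  rw [h1, sum_const, hJc]
  funext i
  rw [Pi.smul_apply, nsmul_eq_mul, CharP.cast_eq_zero, zero_mul, Pi.zero_apply]

lemma upper_bound {n d t k : ℕ} (hd : d ≤ n) (hz : ZeroSum p d t k) :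
    ∃ S : Finset (Fin n → ZMod p), S.card = p ^ (n - d) ∧ IsCovering k (sumSystem t S) := by
  classical
  set π : (Fin n → ZMod p) →ₗ[ZMod p] (Fin d → ZMod p) :=
    LinearMap.funLeft (ZMod p) (ZMod p) (Fin.castLE hd) with hπ
  have hsurj : Function.Surjective π :=
    LinearMap.funLeft_surjective_of_injective _ _ _ (Fin.castLE_injective hd)
  refine ⟨univ.filter (fun x => π x = 0), ?_, ?_⟩
  · have h1 : Module.finrank (ZMod p) (LinearMap.ker π) = n - d := by
      have := LinearMap.finrank_range_add_finrank_ker π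
      rw [LinearMap.range_eq_top.mpr hsurj, finrank_top, Module.finrank_fin_fun,
        Module.finrank_fin_fun] at this
      omega
    have h2 := Module.card_eq_pow_finrank (K := ZMod p) (V := LinearMap.ker π)
    rw [h1, ZMod.card] at h2
    rw [← h2]
    rw [← Fintype.card_subtype]
    exact Fintype.card_congr (Equiv.refl _)
  · intro X hX
    let e : Fin k ≃ X := (Fintype.equivFinOfCardEq (by simpa using hX)).symm
    obtain ⟨J, hJ, hJ0⟩ := hz (fun i => π (e i : Fin n → ZMod p))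
    have hinj : Function.Injective (fun i => (e i : Fin n → ZMod p)) :=
      Subtype.val_injective.comp e.injective
    refine ⟨J.image (fun i => (e i : Fin n → ZMod p)), ?_, ?_⟩
    · rw [sumSystem, mem_filter, mem_powersetCard, mem_filter]
      refine ⟨⟨subset_univ _, by rw [card_image_of_injective _ hinj, hJ]⟩, mem_univ _, ?_⟩
      rw [sum_image (fun a _ b _ h => hinj h), map_sum]
      exact hJ0
    · intro x hx
      obtain ⟨i, -, rfl⟩ := mem_image.mp hx
      exact (e i).2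

end lower

section three

lemma card_sumSystem (n : ℕ) (S : Finset (Fin n → ZMod 3)) :
    S.card * (3 ^ n * (3 ^ n - 3)) ≤ 6 * (sumSystem 3 S).card := by
  classical
  have hp : Fact (Nat.Prime 3) := ⟨Nat.prime_three⟩
  have h1 : (sumSystem 3 S).card = ∑ s ∈ S,
      ((sumSystem 3 S).filter (fun Y => ∑ y ∈ Y, y = s)).card := by
    apply card_eq_sum_card_fiberwise
    intro Y hY
    have hY' : Y ∈ sumSystem 3 S := hY
    rw [sumSystem, mem_filter] at hY'
    exact hY'.2
  rw [h1, mul_sum, card_eq_sum_ones, sum_mul]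
  refine sum_le_sum fun s hs => ?_
  rw [one_mul]
  have h2 := Helper762SS.triples s
  rw [card_E (p := 3) n] at h2
  refine h2.trans (Nat.mul_le_mul_left _ (card_le_card ?_))
  intro Y hY
  rw [mem_filter] at hY ⊢
  rw [sumSystem, mem_filter]
  exact ⟨⟨hY.1, by rw [hY.2]; exact hs⟩, hY.2⟩

lemma cap_bound {n d m k : ℕ} (h : Helper762SS.HasCap d m) (hk : k ≤ m * 2)
    (S : Finset (Fin n → ZMod 3)) (hS : IsCovering k (sumSystem 3 S)) :
    3 ^ (n - d) - 1 ≤ (S.erase 0).card := by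
  have hp : Fact (Nat.Prime 3) := ⟨Nat.prime_three⟩
  by_contra hcon
  push Not at hcon
  exact not_covering hk (Helper762SS.cap_fail (card_E (p := 3) n) h S hcon) hS

/-- The large values of `k`. -/
lemma large {k : ℕ} (hk : 12 ≤ k) : ∃ D : ℕ, 2 ^ D < k ∧ 4 * 3 ^ D ≤ (k - 1) ^ 2 ∧
    ∀ n : ℕ, ∀ S : Finset (Fin n → ZMod 3), IsCovering k (sumSystem 3 S) →
      3 ^ (n - D) - 1 ≤ (S.erase 0).card := by
  by_cases h18 : k ≤ 18
  · refine ⟨3, by omega, ?_, fun n S hS => cap_bound Helper762SS.hasCap_three (by omega) S hS⟩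
    have : 11 ≤ k - 1 := by omega
    calc 4 * 3 ^ 3 ≤ 11 ^ 2 := by norm_num
      _ ≤ (k - 1) ^ 2 := Nat.pow_le_pow_left this 2
  · -- the least `e` with `k ≤ 18 * 2 ^ e`
    have hex : ∃ e : ℕ, k ≤ 9 * 2 ^ e * 2 := by
      refine ⟨k, ?_⟩
      have := Nat.lt_two_pow_self (n := k)
      omega
    classical
    obtain ⟨e, he, hmin⟩ : ∃ e : ℕ, k ≤ 9 * 2 ^ e * 2 ∧ ∀ e' < e, ¬ k ≤ 9 * 2 ^ e' * 2 :=
      ⟨Nat.find hex, Nat.find_spec hex, fun e' he' => Nat.find_min hex he'⟩
    obtain _ | e := e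
    · omega
    · have h1 := hmin e (by omega)
      have h2 : 9 * 2 ^ (e + 1) ≤ k - 1 := by rw [pow_succ]; omega
      refine ⟨3 + (e + 1), ?_, ?_,
        fun n S hS => cap_bound (Helper762SS.hasCap_add (e + 1)) he S hS⟩
      · rw [pow_add]; omega
      · calc 4 * 3 ^ (3 + (e + 1)) = 324 * 3 ^ e := by rw [pow_add, pow_succ]; ring
          _ ≤ 324 * 4 ^ e := Nat.mul_le_mul_left _ (Nat.pow_le_pow_left (by norm_num) e)
          _ = (9 * 2 ^ (e + 1)) ^ 2 := by
              rw [show (4 : ℕ) = 2 ^ 2 by norm_num, ← pow_mul]; ring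
          _ ≤ (k - 1) ^ 2 := Nat.pow_le_pow_left h2 2

/-- Turán's density in the form used below. -/
def Dense (k D : ℕ) : Prop := ∀ n : ℕ, D < n → ∀ S : Finset (Fin n → ZMod 3),
  IsCovering k (sumSystem 3 S) → 4 * (3 ^ n - 3 ^ D) ≤ (k - 1) ^ 2 * (S.erase 0).card

lemma pow_split {n D : ℕ} (h : D < n) : 3 ^ n = 3 ^ D * 3 ^ (n - D) := by
  rw [← pow_add]; congr 1; omega

lemma dense (k : ℕ) (hk : 4 ≤ k) : ∃ D : ℕ, Dense k D := by
  have hp : Fact (Nat.Prime 3) := ⟨Nat.prime_three⟩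
  by_cases h12 : 12 ≤ k
  · obtain ⟨D, -, h2, h3⟩ := large h12
    refine ⟨D, fun n hn S hS => ?_⟩
    have h4 := h3 n S hS
    rw [pow_split hn]
    calc 4 * (3 ^ D * 3 ^ (n - D) - 3 ^ D) = 4 * 3 ^ D * (3 ^ (n - D) - 1) := by
          rw [Nat.mul_sub, Nat.mul_sub, mul_one, mul_assoc]
      _ ≤ (k - 1) ^ 2 * (S.erase 0).card := Nat.mul_le_mul h2 h4
  have hk' : k = 4 ∨ k = 5 ∨ k = 6 ∨ k = 7 ∨ k = 8 ∨ k = 9 ∨ k = 10 ∨ k = 11 := by omega
  rcases hk' with rfl | rfl | rfl | rfl | rfl | rfl | rfl | rfl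
  · refine ⟨1, fun n hn S hS => ?_⟩
    have h1 : ¬ 2 * (S.erase 0).card < 3 * (3 ^ (n - 1) - 1) := fun h =>
      not_covering le_rfl (Helper762SS.case4 (card_E (p := 3) n) S h) hS
    rw [pow_split hn]
    omega
  · refine ⟨2, fun n hn S hS => ?_⟩
    have h1 : ¬ 2 * (S.erase 0).card < 5 * (3 ^ (n - 2) - 1) := fun h =>
      not_covering le_rfl (Helper762SS.case5 (card_E (p := 3) n) S h) hS
    rw [pow_split hn]
    omega
  · refine ⟨2, fun n hn S hS => ?_⟩
    have h1 : ¬ 2 * (S.erase 0).card < 3 * (3 ^ (n - 2) - 1) := fun h =>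
      not_covering le_rfl (Helper762SS.case6 (card_E (p := 3) n) S h) hS
    rw [pow_split hn]
    omega
  · refine ⟨2, fun n hn S hS => ?_⟩
    have h1 := cap_bound Helper762SS.hasCap_two (by norm_num) S hS
    rw [pow_split hn]
    omega
  · refine ⟨2, fun n hn S hS => ?_⟩
    have h1 := cap_bound Helper762SS.hasCap_two (by norm_num) S hS
    rw [pow_split hn]
    omega
  · refine ⟨3, fun n hn S hS => ?_⟩
    have h1 : ¬ 2 * (S.erase 0).card < 4 * (3 ^ (n - 3) - 1) := fun h =>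
      not_covering le_rfl (Helper762SS.case9 (card_E (p := 3) n) S h) hS
    rw [pow_split hn]
    omega
  · refine ⟨3, fun n hn S hS => ?_⟩
    have h1 : ¬ 2 * (S.erase 0).card < 3 * (3 ^ (n - 3) - 1) := fun h =>
      not_covering (by norm_num) (Helper762SS.case11 (card_E (p := 3) n) S h) hS
    rw [pow_split hn]
    omega
  · refine ⟨3, fun n hn S hS => ?_⟩
    have h1 : ¬ 2 * (S.erase 0).card < 3 * (3 ^ (n - 3) - 1) := fun h =>
      not_covering le_rfl (Helper762SS.case11 (card_E (p := 3) n) S h) hS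
    rw [pow_split hn]
    omega

end three

/-- Turán systems given by the sums of the points. -/
theorem result :
    -- any prime `p` and any `t`: sequences without `t` terms of sum zero give a lower bound
    (∀ (p : ℕ) [Fact p.Prime] (n d D t k : ℕ) (f : Fin k → (Fin d → ZMod p)),
      (∀ J : Finset (Fin k), J.card = t → ∑ j ∈ J, f j ≠ 0) →
      (∀ a, (univ.filter (fun i => f i = a)).card ≤ p ^ (D + 1)) →
      ∀ S : Finset (Fin n → ZMod p), IsCovering k (sumSystem t S) →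
        2 * (p ^ (n - (d + D)) - 1) ≤ (p - 1) * (S.erase 0).card) ∧
    -- the case `t = p`
    (∀ (p : ℕ) [Fact p.Prime] (n d k : ℕ), ¬ ZeroSum p d p k →
      ∀ S : Finset (Fin n → ZMod p), IsCovering k (sumSystem p S) →
        2 * (p ^ (n - d) - 1) ≤ (p - 1) * (S.erase 0).card) ∧
    -- the upper bound
    (∀ (p : ℕ) [Fact p.Prime] (n d t k : ℕ), d ≤ n → ZeroSum p d t k →
      ∃ S : Finset (Fin n → ZMod p), S.card = p ^ (n - d) ∧ IsCovering k (sumSystem t S)) ∧
    -- `p = t = 3`: Turán's density `4 / (k - 1) ^ 2` for all `k`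
    (∀ k : ℕ, 4 ≤ k → ∃ D : ℕ, ∀ n : ℕ, D < n → ∀ S : Finset (Fin n → ZMod 3),
      IsCovering k (sumSystem 3 S) →
        4 * (3 ^ n - 3 ^ D) ≤ (k - 1) ^ 2 * (S.erase 0).card ∧
        4 * (3 ^ n - 3 ^ D) * (3 ^ n * (3 ^ n - 3)) ≤
          6 * ((k - 1) ^ 2 * (sumSystem 3 S).card)) ∧
    -- `p = t = 3`: a power saving for `k ≥ 12`
    (∀ k : ℕ, 12 ≤ k → ∃ D : ℕ, 2 ^ D < k ∧
      ∀ n : ℕ, ∀ S : Finset (Fin n → ZMod 3), IsCovering k (sumSystem 3 S) →
        3 ^ (n - D) - 1 ≤ (S.erase 0).card ∧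
        (3 ^ (n - D) - 1) * (3 ^ n * (3 ^ n - 3)) ≤ 6 * (sumSystem 3 S).card) := by
  have hedge : ∀ (n : ℕ) (S : Finset (Fin n → ZMod 3)),
      (S.erase 0).card * (3 ^ n * (3 ^ n - 3)) ≤ 6 * (sumSystem 3 S).card := fun n S =>
    (Nat.mul_le_mul_right _ (card_le_card (erase_subset _ _))).trans (card_sumSystem n S)
  refine ⟨?_, ?_, ?_, ?_, ?_⟩
  · intro p _ n d D t k f hf hm S hS
    exact lower_bound f hf hm S hS
  · intro p _ n d k hz S hS
    unfold ZeroSum at hz
    push Not at hz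
    obtain ⟨f, hf⟩ := hz
    have := lower_bound (D := 0) f hf (mult_le f hf) S hS
    simpa using this
  · intro p _ n d t k hd hz
    exact upper_bound hd hz
  · intro k hk
    obtain ⟨D, hD⟩ := dense k hk
    refine ⟨D, fun n hn S hS => ⟨hD n hn S hS, ?_⟩⟩
    calc 4 * (3 ^ n - 3 ^ D) * (3 ^ n * (3 ^ n - 3))
        ≤ (k - 1) ^ 2 * (S.erase 0).card * (3 ^ n * (3 ^ n - 3)) :=
          Nat.mul_le_mul_right _ (hD n hn S hS)
      _ = (k - 1) ^ 2 * ((S.erase 0).card * (3 ^ n * (3 ^ n - 3))) := by rw [mul_assoc]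
      _ ≤ (k - 1) ^ 2 * (6 * (sumSystem 3 S).card) := Nat.mul_le_mul_left _ (hedge n S)
      _ = 6 * ((k - 1) ^ 2 * (sumSystem 3 S).card) := by ring
  · intro k hk
    obtain ⟨D, h1, -, h3⟩ := large hk
    exact ⟨D, h1, fun n S hS => ⟨h3 n S hS,
      (Nat.mul_le_mul_right _ (h3 n S hS)).trans (hedge n S)⟩⟩

end Pool.Agent.Helper762SS.SumSystems
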